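import Pool.Agent.N9.AB.Triple

/-!
# The inequality for one pair
-/

set_option autoImplicit false

namespace Pool.Agent.V8H8.TC

/-- `σ log (c σ) ≥ - 1 / (c e)` -/
theorem sigma_log {c σ : ℝ} (hc : 0 < c) (hσ : 0 < σ) :
    -(Real.exp (-1) / c) ≤ σ * Real.log (c * σ) := by
  have h1 : 1 - (c * σ * Real.exp 1)⁻¹ ≤ Real.log (c * σ * Real.exp 1) :=
    Real.one_sub_inv_le_log_of_pos (by positivity)
  rw [Real.log_mul (by positivity) (Real.exp_pos 1).ne', Real.log_exp] at h1
  have h2 : σ * (-(c * σ * Real.exp 1)⁻¹) = -(Real.exp (-1) / c) := by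
    rw [Real.exp_neg]
    field_simp
  calc -(Real.exp (-1) / c) = σ * (-(c * σ * Real.exp 1)⁻¹) := h2.symm
    _ ≤ σ * Real.log (c * σ) := by
        apply mul_le_mul_of_nonneg_left _ hσ.le
        linarith

/-- `s log (W κ / s) ≤ κ / 2` for `s ≤ κ / (16 W)` -/
theorem small_log {κ s W : ℝ} (hκ : 0 < κ) (hs : 0 < s) (hW : 0 < W)
    (h : s ≤ 1 / (16 * W) * κ) : s * Real.log (W * κ / s) ≤ κ / 2 := by
  have hr : 0 < W * κ / s := by positivity
  have h1 : Real.log (W * κ / s) ≤ 2 * √(W * κ / s) := by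
    have h2 : Real.log (√(W * κ / s)) ≤ √(W * κ / s) - 1 :=
      Real.log_le_sub_one_of_pos (Real.sqrt_pos.mpr hr)
    rw [Real.log_sqrt hr.le] at h2
    linarith
  have h3 : s * (2 * √(W * κ / s)) ≤ κ / 2 := by
    have h4 : s * √(W * κ / s) ≤ κ / 4 := by
      have h5 : √(W * κ / s) ≤ κ / (4 * s) := by
        apply Real.sqrt_le_iff.mpr
        refine ⟨by positivity, ?_⟩
        rw [div_pow, div_le_div_iff₀ hs (by positivity)]
        have h6 : 16 * W * s ≤ κ := by
          have e1 : 1 / (16 * W) * κ = κ / (16 * W) := by ring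
          rw [e1, le_div_iff₀ (by positivity)] at h
          linarith
        have h7 : 0 < κ * s := by positivity
        nlinarith
      calc s * √(W * κ / s) ≤ s * (κ / (4 * s)) := by gcongr
        _ = κ / 4 := by
            field_simp
    linarith
  calc s * Real.log (W * κ / s) ≤ s * (2 * √(W * κ / s)) := by gcongr
    _ ≤ κ / 2 := h3

/-- the inequality for one pair: `E = (m - 1) log 2 - L + s log G` -/
theorem ineq {κ u s y Y L L' G C m V K δ δ₁ B W η : ℝ} (hs1 : 1 ≤ s) (hκ0 : 0 < κ) (hy : 0 < y)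
    (hY : 1 ≤ Y) (hyY : Y = Real.log y) (hκ : κ * Y = y) (hδ : 0 < δ) (hδ' : δ ≤ 1 / 100)
    (hW : 1 ≤ W) (hη : η = 1 / (16 * W)) (hK : 0 ≤ K) (hK5 : K ≤ 5)
    (hsu : s ≤ 2 * u) (hus : u ≤ s) (hV : 2 ≤ V)
    (hL1 : s * Y - δ₁ * y ≤ L) (hL2 : L ≤ s * (Y + Real.log W))
    (hL' : 2 * u * Y - δ₁ * y ≤ L') (hLs : s ≤ L)
    (hC : L ≤ s * Y + C - K * u + K / 2 * s) (hC0 : 0 ≤ C)
    (hm : (V - 2 * δ) * κ + C ≤ (m - 1) * Real.log 2) (hmB : m * Real.log 2 ≤ B * κ)
    (hG1 : L ≤ G) (hG2 : L + 1 / 2 * L' - m * Real.log 2 ≤ G)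
    (hδ₁ : 0 ≤ δ₁) (hB : 0 ≤ B) (hsmall : 2 * δ₁ / η + B / (η * Y) ≤ 1 - Real.exp (-δ)) :
    K * u + min (V - 2 * δ - 2 / 3 * Real.exp (K / 2 + δ - 1)) (1 / 10) * κ ≤
      (m - 1) * Real.log 2 - L + s * Real.log G := by
  have hs0 : 0 < s := by linarith
  have hY0 : 0 < Y := by linarith
  have hW0 : 0 < W := by linarith
  have hη0 : 0 < η := by rw [hη]; positivity
  have hη16 : η ≤ 1 / 16 := by
    rw [hη]
    apply one_div_le_one_div_of_le (by norm_num)
    linarith
  have hlogW : 0 ≤ Real.log W := Real.log_nonneg hW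
  have hL0 : 0 < L := by linarith
  have hG0 : 0 < G := by linarith
  set ρ : ℝ := min (V - 2 * δ - 2 / 3 * Real.exp (K / 2 + δ - 1)) (1 / 10) with hρ
  have hρ1 : ρ ≤ V - 2 * δ - 2 / 3 * Real.exp (K / 2 + δ - 1) := min_le_left _ _
  have hρ2 : ρ ≤ 1 / 10 := min_le_right _ _
  rcases le_total s (η * κ) with hcase | hcase
  · -- the small case
    have h1 : s * Real.log L ≤ s * Real.log G := by
      have := Real.log_le_log hL0 hG1
      gcongr
    have h2 := Pool.Agent.N9.AB.decr (k := s) (g := L) (G := s * (Y + Real.log W)) hs0.le hL0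
      hLs hL2
    have h3 : Real.log (s * Y) ≤ Real.log (s * (Y + Real.log W)) := by
      apply Real.log_le_log (by positivity)
      gcongr
      linarith
    have h4 : Real.log (s * Y) = Y - Real.log (W * κ / s) + Real.log W := by
      rw [Real.log_div (by positivity) hs0.ne', Real.log_mul hW0.ne' hκ0.ne',
        Real.log_mul hs0.ne' hY0.ne']
      have h5 : Real.log (κ * Y) = Y := by rw [hκ, hyY]
      rw [Real.log_mul hκ0.ne' hY0.ne'] at h5
      linarith
    have h5 := small_log hκ0 hs0 hW0 (by rw [← hη]; exact hcase)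
    have h6 : s * Real.log (s * (Y + Real.log W)) ≥
        s * (Y - Real.log (W * κ / s) + Real.log W) := by
      rw [← h4]
      gcongr
    have h7 : K * u ≤ 5 * (1 / 16 * κ) := by
      have h8 : u ≤ 1 / 16 * κ := by
        have : η * κ ≤ 1 / 16 * κ := by gcongr
        linarith
      have h9 : 0 ≤ u := by linarith
      calc K * u ≤ 5 * u := by gcongr
        _ ≤ 5 * (1 / 16 * κ) := by gcongr
    have h8 : ρ * κ ≤ 1 / 10 * κ := by gcongr
    have h9 : (1.98 : ℝ) * κ ≤ (V - 2 * δ) * κ := by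
      apply mul_le_mul_of_nonneg_right _ hκ0.le
      linarith
    linarith
  · -- the large case
    have hG : 3 / 2 * s * Y * Real.exp (-δ) ≤ G := by
      have h1 : κ ≤ s / η := by
        rw [le_div_iff₀ hη0]
        linarith
      have h2 : δ₁ * y ≤ δ₁ / η * (s * Y) := by
        rw [← hκ]
        calc δ₁ * (κ * Y) ≤ δ₁ * (s / η * Y) := by gcongr
          _ = δ₁ / η * (s * Y) := by ring
      have h3 : B * κ ≤ B / (η * Y) * (s * Y) := by
        calc B * κ ≤ B * (s / η) := by gcongr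
          _ = B / (η * Y) * (s * Y) := by
              field_simp
      have h4 : (2 * δ₁ / η + B / (η * Y)) * (s * Y) ≤ (1 - Real.exp (-δ)) * (s * Y) := by
        gcongr
      have h5 : s * Y ≤ 2 * u * Y := by gcongr
      have h6 : 0 ≤ (1 - Real.exp (-δ)) * (s * Y) := by
        apply mul_nonneg _ (by positivity)
        have : Real.exp (-δ) ≤ 1 := Real.exp_le_one_iff.mpr (by linarith)
        linarith
      have h7 : 2 * δ₁ / η * (s * Y) = 2 * (δ₁ / η * (s * Y)) := by ring
      rw [add_mul, h7] at h4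
      have h8 : 0 ≤ δ₁ / η * (s * Y) := by positivity
      linarith
    have h6 : Real.log (3 / 2 * s * Y) - δ ≤ Real.log G := by
      have h7 := Real.log_le_log (by positivity) hG
      rw [Real.log_mul (by positivity) (Real.exp_pos _).ne', Real.log_exp] at h7
      linarith
    have h7 : Real.log (3 / 2 * s * Y) = Real.log (3 / 2 * (s / κ)) + Y := by
      have h8 : Y = Real.log (κ * Y) := by rw [hκ, hyY]
      conv_rhs => rw [h8]
      rw [← Real.log_mul (by positivity) (by positivity)]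
      congr 1
      field_simp
    have h8 : Real.log (3 / 2 * Real.exp (-(K / 2 + δ)) * (s / κ)) =
        Real.log (3 / 2 * (s / κ)) - K / 2 - δ := by
      have e1 : 3 / 2 * Real.exp (-(K / 2 + δ)) * (s / κ) =
          3 / 2 * (s / κ) * Real.exp (-(K / 2 + δ)) := by ring
      rw [e1, Real.log_mul (by positivity) (Real.exp_pos _).ne', Real.log_exp]
      ring
    have h9 := sigma_log (c := 3 / 2 * Real.exp (-(K / 2 + δ))) (σ := s / κ) (by positivity)
      (by positivity)
    rw [h8] at h9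
    have h10 : Real.exp (-1) / (3 / 2 * Real.exp (-(K / 2 + δ))) =
        2 / 3 * Real.exp (K / 2 + δ - 1) := by
      rw [div_eq_iff (by positivity)]
      have : Real.exp (-1) = Real.exp (K / 2 + δ - 1) * Real.exp (-(K / 2 + δ)) := by
        rw [← Real.exp_add]
        ring_nf
      rw [this]
      ring
    rw [h10] at h9
    have h11 : -(2 / 3 * Real.exp (K / 2 + δ - 1)) * κ ≤
        s * (Real.log (3 / 2 * (s / κ)) - K / 2 - δ) := by
      have h12 := mul_le_mul_of_nonneg_right h9 hκ0.le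
      have h13 : s / κ * (Real.log (3 / 2 * (s / κ)) - K / 2 - δ) * κ =
          s * (Real.log (3 / 2 * (s / κ)) - K / 2 - δ) := by
        field_simp
      rwa [h13] at h12
    have h12 : s * (Real.log (3 / 2 * (s / κ)) + Y - δ) ≤ s * Real.log G := by
      apply mul_le_mul_of_nonneg_left _ hs0.le
      linarith
    have h13 : ρ * κ ≤ (V - 2 * δ - 2 / 3 * Real.exp (K / 2 + δ - 1)) * κ := by gcongr
    linarith

end Pool.Agent.V8H8.TC
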