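import Pool.Agent.N9.AB.Triple

/-!
# The triple given by two vectors of exponents with congruent products
-/

set_option autoImplicit false

namespace Pool.Agent.V8H8.TC

open Finset

variable {ι : Type*} [Fintype ι]

/-- the data of the triple `(∏ q ^ e - ∏ q ^ f, ∏ q ^ f, ∏ q ^ e)` -/
theorem core {q : ι → ℕ} {y m u s : ℕ} (hq : ∀ i, (q i).Prime ∧ 3 ≤ q i ∧ q i ≤ y)
    (hinj : Function.Injective q) {e f : ι → ℕ} (hef : ∀ i, e i = 0 ∨ f i = 0)
    (heu : ∑ i, e i = u)
    (hs : (univ.filter fun i => e i ≠ 0 ∨ f i ≠ 0).card = s) (hs1 : 1 ≤ s)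
    (hlt : ∏ i, q i ^ f i < ∏ i, q i ^ e i)
    (hmod : (∏ i, q i ^ f i) ≡ (∏ i, q i ^ e i) [MOD 2 ^ m]) :
    ∃ a b c : ℕ, 0 < a ∧ 0 < b ∧ a + b = c ∧ Nat.Coprime a b ∧ 2 ^ m ≤ c ∧
      Real.log c ≤ u * Real.log y ∧ ∃ G : ℝ,
        (∑ i with (e i ≠ 0 ∨ f i ≠ 0), Real.log (q i)) ≤ G ∧
        (∑ i with (e i ≠ 0 ∨ f i ≠ 0), Real.log (q i)) +
          1 / 2 * (∑ i, ((e i : ℝ) + f i) * Real.log (q i)) - m * Real.log 2 ≤ G ∧
        1 ≤ Real.log ((∏ p ∈ (a * b * c).primeFactors, p : ℕ) : ℝ) ∧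
        (m - 1) * Real.log 2 - (∑ i with (e i ≠ 0 ∨ f i ≠ 0), Real.log (q i)) +
            s * Real.log G ≤
          Real.log c - (Real.log ((∏ p ∈ (a * b * c).primeFactors, p : ℕ) : ℝ) -
            ((a * b * c).primeFactors.card : ℝ) *
              Real.log (Real.log ((∏ p ∈ (a * b * c).primeFactors, p : ℕ) : ℝ))) := by
  classical
  set c : ℕ := ∏ i, q i ^ e i with hc
  set b : ℕ := ∏ i, q i ^ f i with hb
  have hb0 : 0 < b := Finset.prod_pos fun i _ => pow_pos (hq i).1.pos _
  have hc0 : 0 < c := Finset.prod_pos fun i _ => pow_pos (hq i).1.pos _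
  have hbR : (0 : ℝ) < b := by exact_mod_cast hb0
  have hcR : (0 : ℝ) < c := by exact_mod_cast hc0
  have hcop : Nat.Coprime c b := by
    rw [hc, hb]
    apply Nat.Coprime.prod_left
    intro i _
    apply Nat.Coprime.prod_right
    intro j _
    rcases hef i with h | h
    · rw [h, pow_zero]
      exact Nat.coprime_one_left _
    · by_cases hij : i = j
      · rw [← hij, h, pow_zero]
        exact Nat.coprime_one_right _
      · apply Nat.Coprime.pow
        rw [Nat.coprime_primes (hq i).1 (hq j).1]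
        exact fun h => hij (hinj h)
  obtain ⟨d, hd⟩ := (Nat.modEq_iff_dvd' hlt.le).mp hmod
  have hcb : 0 < c - b := by omega
  have hd0 : 0 < d := by
    rcases Nat.eq_zero_or_pos d with h | h
    · rw [h, mul_zero] at hd
      omega
    · exact h
  have hdR : (0 : ℝ) < d := by exact_mod_cast hd0
  have h2m : 2 ^ m * d ≤ c := by omega
  have h2mc : 2 ^ m ≤ c := le_trans (Nat.le_mul_of_pos_right _ hd0) h2m
  have hlogc' : Real.log c = ∑ i, (e i : ℝ) * Real.log (q i) := by
    rw [hc]
    push_cast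
    rw [Real.log_prod (fun i _ => by
      have := (hq i).1.pos
      positivity)]
    exact Finset.sum_congr rfl fun i _ => Real.log_pow _ _
  have hlogb' : Real.log b = ∑ i, (f i : ℝ) * Real.log (q i) := by
    rw [hb]
    push_cast
    rw [Real.log_prod (fun i _ => by
      have := (hq i).1.pos
      positivity)]
    exact Finset.sum_congr rfl fun i _ => Real.log_pow _ _
  set X : Finset ι := univ.filter fun i => e i ≠ 0 ∨ f i ≠ 0 with hX
  set L : ℝ := ∑ i ∈ X, Real.log (q i) with hLdef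
  set L' : ℝ := ∑ i, ((e i : ℝ) + f i) * Real.log (q i) with hL'def
  have hL' : L' = Real.log c + Real.log b := by
    rw [hlogc', hlogb', ← Finset.sum_add_distrib]
    exact Finset.sum_congr rfl fun i _ => by ring
  have h3 : (1 : ℝ) ≤ Real.log 3 := by
    rw [Real.le_log_iff_exp_le (by norm_num)]
    exact (Real.exp_one_lt_d9.trans (by norm_num)).le
  have hlq : ∀ i, 1 ≤ Real.log (q i) := fun i =>
    h3.trans (Real.log_le_log (by norm_num) (by exact_mod_cast (hq i).2.1))
  have hLs : (s : ℝ) ≤ L := by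
    calc (s : ℝ) = ∑ _ ∈ X, (1 : ℝ) := by rw [Finset.sum_const, nsmul_eq_mul, mul_one, hs]
      _ ≤ L := Finset.sum_le_sum fun i _ => hlq i
  have hsR : (1 : ℝ) ≤ s := by exact_mod_cast hs1
  have hlogbc : Real.log b ≤ Real.log c := Real.log_le_log hbR (by exact_mod_cast hlt.le)
  have hlog2 : 0 < Real.log 2 := Real.log_pos (by norm_num)
  have hlogc : (m : ℝ) * Real.log 2 ≤ Real.log c := by
    rw [← Real.log_pow]
    exact Real.log_le_log (by positivity) (by exact_mod_cast h2mc)
  have hlogd : Real.log d ≤ Real.log c - m * Real.log 2 := by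
    have h1 : ((2 : ℝ) ^ m * d) ≤ c := by exact_mod_cast h2m
    have h2 := Real.log_le_log (by positivity) h1
    rw [Real.log_mul (by positivity) hdR.ne', Real.log_pow] at h2
    linarith
  refine ⟨c - b, b, c, hcb, hb0, by omega, ?_, h2mc, ?_, L + Real.log c - (m - 1) * Real.log 2,
    ?_, ?_, ?_⟩
  · rw [Nat.coprime_sub_self_left hlt.le]
    exact hcop
  · rw [hlogc', ← heu]
    push_cast
    rw [Finset.sum_mul]
    apply Finset.sum_le_sum
    intro i _
    apply mul_le_mul_of_nonneg_left _ (by positivity)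
    apply Real.log_le_log
    · exact_mod_cast (hq i).1.pos
    · exact_mod_cast (hq i).2.2
  · linarith
  · linarith
  · set n : ℕ := (c - b) * b * c with hn
    have hn0 : n ≠ 0 := by
      rw [hn]
      positivity
    have hXn : X.image q ⊆ n.primeFactors := by
      intro p hp
      rw [mem_image] at hp
      obtain ⟨i, hi, rfl⟩ := hp
      rw [hX, mem_filter] at hi
      rw [Nat.mem_primeFactors]
      refine ⟨(hq i).1, ?_, hn0⟩
      rcases hi.2 with h | h
      · rw [hn]
        apply Dvd.dvd.mul_left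
        rw [hc]
        exact (dvd_pow_self _ h).trans (Finset.dvd_prod_of_mem _ (mem_univ i))
      · rw [hn]
        apply Dvd.dvd.mul_right
        apply Dvd.dvd.mul_left
        rw [hb]
        exact (dvd_pow_self _ h).trans (Finset.dvd_prod_of_mem _ (mem_univ i))
    have hω : (s : ℝ) ≤ (n.primeFactors.card : ℝ) := by
      have h1 := Finset.card_le_card hXn
      rw [Finset.card_image_of_injective _ hinj, hs] at h1
      exact_mod_cast h1
    have hr0 : 0 < ∏ p ∈ n.primeFactors, p :=
      Finset.prod_pos fun p hp => (Nat.prime_of_mem_primeFactors hp).pos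
    have hrlow : ∏ i ∈ X, q i ≤ ∏ p ∈ n.primeFactors, p := by
      have h1 : ∏ p ∈ X.image q, p ∣ ∏ p ∈ n.primeFactors, p :=
        Finset.prod_dvd_prod_of_subset _ _ _ hXn
      rw [Finset.prod_image (fun i _ j _ h => hinj h)] at h1
      exact Nat.le_of_dvd hr0 h1
    have hprimes : ∀ p : ℕ, p.Prime → p ∣ c ∨ p ∣ b → p ∣ ∏ i ∈ X, q i := by
      intro p hp h
      have key : ∀ g : ι → ℕ, (∀ i, g i ≠ 0 → i ∈ X) → p ∣ ∏ i, q i ^ g i →
          p ∣ ∏ i ∈ X, q i := by
        intro g hg h
        obtain ⟨i, _, hi⟩ := (Prime.dvd_finsetProd_iff hp.prime _).mp h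
        have hgi : g i ≠ 0 := by
          intro h0
          rw [h0, pow_zero] at hi
          exact hp.one_lt.ne' (Nat.dvd_one.mp hi)
        exact (hp.dvd_of_dvd_pow hi).trans (Finset.dvd_prod_of_mem _ (hg i hgi))
      rcases h with h | h
      · exact key e (fun i hi => by simp [hX, hi]) h
      · exact key f (fun i hi => by simp [hX, hi]) h
    have hQ0 : 0 < ∏ i ∈ X, q i := Finset.prod_pos fun i _ => (hq i).1.pos
    have hrup : ∏ p ∈ n.primeFactors, p ≤ 2 * d * ∏ i ∈ X, q i := by
      have hne : 2 * d * ∏ i ∈ X, q i ≠ 0 := by positivity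
      have h1 : n.primeFactors ⊆ (2 * d * ∏ i ∈ X, q i).primeFactors := by
        intro p hp
        rw [Nat.mem_primeFactors] at hp ⊢
        obtain ⟨hpp, hpn, _⟩ := hp
        refine ⟨hpp, ?_, hne⟩
        rw [hn, hd] at hpn
        rcases (Nat.Prime.dvd_mul hpp).mp hpn with h | h
        · rcases (Nat.Prime.dvd_mul hpp).mp h with h | h
          · rcases (Nat.Prime.dvd_mul hpp).mp h with h | h
            · have h2 : p ∣ 2 := hpp.dvd_of_dvd_pow h
              exact Dvd.dvd.mul_right (Dvd.dvd.mul_right h2 _) _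
            · exact Dvd.dvd.mul_right (Dvd.dvd.mul_left h _) _
          · exact Dvd.dvd.mul_left (hprimes p hpp (Or.inr h)) _
        · exact Dvd.dvd.mul_left (hprimes p hpp (Or.inl h)) _
      have h2 : ∏ p ∈ n.primeFactors, p ∣ 2 * d * ∏ i ∈ X, q i :=
        (Finset.prod_dvd_prod_of_subset _ _ _ h1).trans (Nat.prod_primeFactors_dvd _)
      exact Nat.le_of_dvd (Nat.pos_of_ne_zero hne) h2
    set r : ℕ := ∏ p ∈ n.primeFactors, p with hr
    have hrR : (0 : ℝ) < r := by exact_mod_cast hr0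
    set g : ℝ := Real.log (r : ℝ) with hg
    have hLQ : Real.log ((∏ i ∈ X, q i : ℕ) : ℝ) = L := by
      push_cast
      rw [Real.log_prod (fun i _ => by exact_mod_cast (hq i).1.ne_zero)]
    have hglow : L ≤ g := by
      rw [← hLQ]
      exact Real.log_le_log (by exact_mod_cast hQ0) (by exact_mod_cast hrlow)
    have hgup : g ≤ L + Real.log c - (m - 1) * Real.log 2 := by
      have h1 : (r : ℝ) ≤ ((2 * d * ∏ i ∈ X, q i : ℕ) : ℝ) := by exact_mod_cast hrup
      have h2 := Real.log_le_log hrR h1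
      have h3 : Real.log ((2 * d * ∏ i ∈ X, q i : ℕ) : ℝ) =
          Real.log 2 + Real.log d + L := by
        rw [← hLQ, Nat.cast_mul, Nat.cast_mul, Real.log_mul (by positivity)
          (by exact_mod_cast hQ0.ne'), Real.log_mul (by norm_num) hdR.ne']
        norm_num
      linarith
    have hg1 : 1 ≤ g := by linarith
    refine ⟨hg1, ?_⟩
    have hlogg : 0 ≤ Real.log g := Real.log_nonneg hg1
    have h5 : (s : ℝ) * Real.log g ≤ (n.primeFactors.card : ℝ) * Real.log g := by gcongr
    have h6 := Pool.Agent.N9.AB.decr (k := (s : ℝ)) (g := g)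
      (G := L + Real.log c - (m - 1) * Real.log 2) (by positivity) (by linarith) (by linarith) hgup
    linarith

/-- the triple given by two vectors of exponents of the same sum with congruent products -/
theorem triple {q : ι → ℕ} {y m : ℕ} (hq : ∀ i, (q i).Prime ∧ 3 ≤ q i ∧ q i ≤ y)
    (hinj : Function.Injective q) {x x' : ι → ℕ} (hsum : ∑ i, x i = ∑ i, x' i) (hne : x ≠ x')
    (hmod : (∏ i, q i ^ x i) ≡ (∏ i, q i ^ x' i) [MOD 2 ^ m]) :
    ∃ u s : ℕ, 1 ≤ s ∧ (univ.filter fun i => x i ≠ x' i).card = s ∧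
    2 * (u : ℝ) = ∑ i, |(x i : ℝ) - x' i| ∧
    ∃ a b c : ℕ, 0 < a ∧ 0 < b ∧ a + b = c ∧ Nat.Coprime a b ∧ 2 ^ m ≤ c ∧
      Real.log c ≤ u * Real.log y ∧ ∃ G : ℝ,
        (∑ i with x i ≠ x' i, Real.log (q i)) ≤ G ∧
        (∑ i with x i ≠ x' i, Real.log (q i)) +
          1 / 2 * (∑ i, |(x i : ℝ) - x' i| * Real.log (q i)) - m * Real.log 2 ≤ G ∧
        1 ≤ Real.log ((∏ p ∈ (a * b * c).primeFactors, p : ℕ) : ℝ) ∧
        (m - 1) * Real.log 2 - (∑ i with x i ≠ x' i, Real.log (q i)) + s * Real.log G ≤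
          Real.log c - (Real.log ((∏ p ∈ (a * b * c).primeFactors, p : ℕ) : ℝ) -
            ((a * b * c).primeFactors.card : ℝ) *
              Real.log (Real.log ((∏ p ∈ (a * b * c).primeFactors, p : ℕ) : ℝ))) := by
  classical
  set e : ι → ℕ := fun i => x i - x' i with he
  set f : ι → ℕ := fun i => x' i - x i with hf
  have hef : ∀ i, e i = 0 ∨ f i = 0 := by
    intro i
    simp only [he, hf]
    omega
  have hfilt : ∀ i, (e i ≠ 0 ∨ f i ≠ 0) ↔ x i ≠ x' i := by
    intro i
    simp only [he, hf]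
    omega
  have hfilt' : ∀ i, (f i ≠ 0 ∨ e i ≠ 0) ↔ x i ≠ x' i := by
    intro i
    simp only [he, hf]
    omega
  have habs : ∀ i, |(x i : ℝ) - x' i| = (e i : ℝ) + f i := by
    intro i
    simp only [he, hf]
    rcases le_total (x i) (x' i) with h | h
    · have h' : (x i : ℝ) ≤ x' i := by exact_mod_cast h
      rw [abs_of_nonpos (by linarith), Nat.sub_eq_zero_of_le h, Nat.cast_sub h]
      push_cast
      ring
    · have h' : (x' i : ℝ) ≤ x i := by exact_mod_cast h
      rw [abs_of_nonneg (by linarith), Nat.sub_eq_zero_of_le h, Nat.cast_sub h]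
      push_cast
      ring
  have hmin1 : ∀ i, x i = min (x i) (x' i) + e i := by
    intro i
    simp only [he]
    omega
  have hmin2 : ∀ i, x' i = min (x i) (x' i) + f i := by
    intro i
    simp only [hf]
    omega
  have hsumef : ∑ i, e i = ∑ i, f i := by
    have h1 : ∑ i, x i = ∑ i, min (x i) (x' i) + ∑ i, e i := by
      rw [← Finset.sum_add_distrib]
      exact Finset.sum_congr rfl fun i _ => hmin1 i
    have h2 : ∑ i, x' i = ∑ i, min (x i) (x' i) + ∑ i, f i := by
      rw [← Finset.sum_add_distrib]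
      exact Finset.sum_congr rfl fun i _ => hmin2 i
    omega
  set u : ℕ := ∑ i, e i with hu
  set s : ℕ := (univ.filter fun i => x i ≠ x' i).card with hs
  obtain ⟨i₀, hi₀⟩ := Function.ne_iff.mp hne
  have hs1 : 1 ≤ s := by
    rw [hs, Nat.one_le_iff_ne_zero, Finset.card_ne_zero]
    exact ⟨i₀, by simp [hi₀]⟩
  have hu2 : 2 * (u : ℝ) = ∑ i, |(x i : ℝ) - x' i| := by
    rw [Finset.sum_congr rfl fun i _ => habs i, Finset.sum_add_distrib]
    have h1 : ((∑ i, e i : ℕ) : ℝ) = ∑ i, (e i : ℝ) := by push_cast; rfl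
    have h2 : ((∑ i, f i : ℕ) : ℝ) = ∑ i, (f i : ℝ) := by push_cast; rfl
    rw [← h1, ← h2, ← hsumef]
    ring
  -- the congruence of the differences
  have hmod2 : (∏ i, q i ^ e i) ≡ (∏ i, q i ^ f i) [MOD 2 ^ m] := by
    have h1 : ∏ i, q i ^ x i = (∏ i, q i ^ min (x i) (x' i)) * ∏ i, q i ^ e i := by
      rw [← Finset.prod_mul_distrib]
      apply Finset.prod_congr rfl
      intro i _
      rw [← pow_add, ← hmin1 i]
    have h2 : ∏ i, q i ^ x' i = (∏ i, q i ^ min (x i) (x' i)) * ∏ i, q i ^ f i := by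
      rw [← Finset.prod_mul_distrib]
      apply Finset.prod_congr rfl
      intro i _
      rw [← pow_add, ← hmin2 i]
    rw [h1, h2] at hmod
    refine Nat.ModEq.cancel_left_of_coprime ?_ hmod
    apply Nat.Coprime.pow_left
    apply Nat.Coprime.prod_right
    intro i _
    apply Nat.Coprime.pow_right
    rw [Nat.coprime_primes Nat.prime_two (hq i).1]
    have := (hq i).2.1
    omega
  refine ⟨u, s, hs1, rfl, hu2, ?_⟩
  have hs_ef : (univ.filter fun i => e i ≠ 0 ∨ f i ≠ 0).card = s := by
    rw [hs]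
    congr 1
    exact Finset.filter_congr fun i _ => hfilt i
  have hs_fe : (univ.filter fun i => f i ≠ 0 ∨ e i ≠ 0).card = s := by
    rw [hs]
    congr 1
    exact Finset.filter_congr fun i _ => hfilt' i
  rcases lt_trichotomy (∏ i, q i ^ f i) (∏ i, q i ^ e i) with h | h | h
  · have h1 := core hq hinj hef rfl hs_ef hs1 h hmod2.symm
    rw [Finset.filter_congr fun i _ => hfilt i] at h1
    have hA : ∑ i, |(x i : ℝ) - x' i| * Real.log (q i) =
        ∑ i, ((e i : ℝ) + f i) * Real.log (q i) :=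
      Finset.sum_congr rfl fun i _ => by rw [habs i]
    rw [hA]
    exact h1
  · exfalso
    have hc : Nat.Coprime (∏ i, q i ^ e i) (∏ i, q i ^ f i) := by
      apply Nat.Coprime.prod_left
      intro i _
      apply Nat.Coprime.prod_right
      intro j _
      rcases hef i with h | h
      · rw [h, pow_zero]
        exact Nat.coprime_one_left _
      · by_cases hij : i = j
        · rw [← hij, h, pow_zero]
          exact Nat.coprime_one_right _
        · apply Nat.Coprime.pow
          rw [Nat.coprime_primes (hq i).1 (hq j).1]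
          exact fun h => hij (hinj h)
    rw [h, Nat.coprime_self] at hc
    rw [hc] at h
    have key : ∀ g : ι → ℕ, ∏ i, q i ^ g i = 1 → g i₀ = 0 := by
      intro g hg
      by_contra hne0
      have h1 : q i₀ ∣ ∏ i, q i ^ g i :=
        (dvd_pow_self _ hne0).trans (Finset.dvd_prod_of_mem _ (mem_univ i₀))
      rw [hg] at h1
      exact (hq i₀).1.one_lt.ne' (Nat.dvd_one.mp h1)
    have h1 := key f h
    have h2 := key e hc
    simp only [he, hf] at h1 h2
    omega
  · have h1 := core hq hinj (fun i => (hef i).symm) hsumef.symm hs_fe hs1 h hmod2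
    rw [Finset.filter_congr fun i _ => hfilt' i] at h1
    have hA : ∑ i, |(x i : ℝ) - x' i| * Real.log (q i) =
        ∑ i, ((f i : ℝ) + e i) * Real.log (q i) :=
      Finset.sum_congr rfl fun i _ => by rw [habs i, add_comm]
    rw [hA]
    exact h1

end Pool.Agent.V8H8.TC
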