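import Pool.Agent.V8H8.TC.Select
import Pool.Agent.V8H8.TC.Triple
import Pool.Agent.V8H8.TC.Ineq

/-!
# The triple of a good pair
-/

set_option autoImplicit false

namespace Pool.Agent.V8H8.TC

open Finset

theorem log_21_ge : (0.74 : ℝ) ≤ Real.log (21 / 10) := by
  have h1 : Real.log (21 / 10 : ℝ) = Real.log 2 + Real.log (21 / 20) := by
    rw [← Real.log_mul (by norm_num) (by norm_num)]
    norm_num
  have h2 := Real.log_two_gt_d9
  have h3 : 1 - (21 / 20 : ℝ)⁻¹ ≤ Real.log (21 / 20) :=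
    Real.one_sub_inv_le_log_of_pos (by norm_num)
  norm_num at h3
  linarith

theorem exp_bound_main : (2 / 3 : ℝ) * Real.exp (43 / 10 / 2 + 1 / 2000 - 1) ≤ 2.11 := by
  have h1 : Real.exp (43 / 10 / 2 + 1 / 2000 - 1) = Real.exp 1 * Real.exp (301 / 2000) := by
    rw [← Real.exp_add]
    norm_num
  have h2 := Real.exp_one_lt_d9
  have h3 : Real.exp (301 / 2000 : ℝ) ≤ 1.1626 := by
    have h4 := Real.exp_bound' (x := 301 / 2000) (by norm_num) (by norm_num) (n := 3) (by norm_num)
    refine h4.trans ?_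
    rw [Finset.sum_range_succ, Finset.sum_range_succ, Finset.sum_range_succ,
      Finset.sum_range_zero]
    norm_num [Nat.factorial]
  rw [h1]
  have h5 : 0 < Real.exp 1 := Real.exp_pos 1
  have h6 : Real.exp 1 * Real.exp (301 / 2000) ≤ 2.7182818286 * 1.1626 := by
    apply mul_le_mul h2.le h3 (Real.exp_pos _).le (by norm_num)
  have h7 : (2.7182818286 : ℝ) * 1.1626 ≤ 3.1604 := by norm_num
  linarith

theorem pair {y : ℕ} {Y κ Q δ₁ : ℝ} (hy : 3 ≤ y) (hYy : Y = Real.log y) (hY1 : 1 ≤ Y)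
    (hκ : κ * Y = y) (hκ1 : 1 ≤ κ)
    (hA1 : ((PP y).card : ℝ) ≤ 1001 * κ)
    (hA2 : (2.113 - 1 / 2000) * κ + S1 y / 2 ≤ LZ y)
    (hA4 : (Nat.primeCounting y : ℝ) * Real.log y - Chebyshev.theta y ≤ δ₁ * y)
    (hQ : Q = Real.log (((2 * (PP y).card : ℕ) + 1 : ℝ) * ((14 * (PP y).card : ℕ) + 1)) +
      Real.log (100000000 : ℕ) + 2 * Real.log 2)
    (hA5 : Q + 1 ≤ 1 / 4000 * κ) (hδ₁ : 0 ≤ δ₁)
    (hA6 : 2 * δ₁ / (1 / (16 * 1000)) + 2002 / (1 / (16 * 1000) * Y) ≤
      1 - Real.exp (-(1 / 2000))) :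
    ∃ u : ℕ, ∃ m : ℕ, κ ≤ m * Real.log 2 ∧
      ∃ a b c : ℕ, 0 < a ∧ 0 < b ∧ a + b = c ∧ Nat.Coprime a b ∧ 2 ^ m ≤ c ∧
      Real.log c ≤ u * Real.log ((1000 * y : ℕ) : ℝ) ∧
      1 ≤ Real.log ((∏ p ∈ (a * b * c).primeFactors, p : ℕ) : ℝ) ∧
      (43 / 10 + 1 / 600000) * (u : ℝ) ≤
          Real.log c - (Real.log ((∏ p ∈ (a * b * c).primeFactors, p : ℕ) : ℝ) -
            ((a * b * c).primeFactors.card : ℝ) *
              Real.log (Real.log ((∏ p ∈ (a * b * c).primeFactors, p : ℕ) : ℝ))) := by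
  classical
  have hyR : (3 : ℝ) ≤ y := by exact_mod_cast hy
  have hy0 : (0 : ℝ) < y := by linarith
  have hκ0 : 0 < κ := by linarith
  have hl2 : 0 < Real.log 2 := Real.log_pos (by norm_num)
  have hS10 : 0 ≤ S1 y := Finset.sum_nonneg fun p _ => lam_nonneg y p
  have hS1 : S1 y ≤ 7 * (PP y).card := by
    rw [S1]
    calc ∑ p ∈ P1 y, lam y p ≤ ∑ p ∈ PP y, lam y p :=
          Finset.sum_le_sum_of_subset_of_nonneg (Finset.filter_subset _ _)
            fun p _ _ => lam_nonneg y p
      _ ≤ ∑ _ ∈ PP y, (7 : ℝ) := Finset.sum_le_sum fun p hp => lam_le (by omega) hp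
      _ = 7 * (PP y).card := by rw [Finset.sum_const, nsmul_eq_mul, mul_comm]
  obtain ⟨t, m, x, x', ht, hx2, hx1, hsum, hne, hmod, hcost, hm, hmB⟩ :=
    select (y := y) (N := 100000000) (by omega) (by norm_num) (Q := Q) hQ (by linarith)
  have hPmem : ∀ i : ↥(PP y), (i : ℕ).Prime ∧ 3 ≤ (i : ℕ) ∧ (i : ℕ) ≤ 1000 * y := by
    intro i
    have h1 : (i : ℕ) ∈ (Nat.primesLE (1000 * y)).erase 2 := i.2
    rw [Finset.mem_erase, Nat.mem_primesLE] at h1
    have := h1.2.2.two_le
    exact ⟨h1.2.2, by omega, h1.2.1⟩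
  obtain ⟨u, s, hs1, hscard, hu2, a, b, c, ha, hb, habc, hcop, h2m, hlogc, G, hG1, hG2, hg1, hest⟩ :=
    triple (q := fun i : ↥(PP y) => (i : ℕ)) (y := 1000 * y) (m := m) hPmem
      Subtype.val_injective hsum hne hmod
  set X : Finset ↥(PP y) := univ.filter fun i => x i ≠ x' i with hX
  set z : ↥(PP y) → ℝ := fun i => |(x i : ℝ) - x' i| with hz
  set L : ℝ := ∑ i ∈ X, Real.log ((i : ℕ) : ℝ) with hL
  set L' : ℝ := ∑ i, z i * Real.log ((i : ℕ) : ℝ) with hL'
  set C : ℝ := ∑ i : ↥(PP y), lam y i * ((x i : ℝ) - x' i) ^ 2 with hC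
  have hC0 : 0 ≤ C := Finset.sum_nonneg fun i _ => mul_nonneg (lam_nonneg y i) (sq_nonneg _)
  have hzX : ∀ i, i ∉ X → z i = 0 := by
    intro i hi
    rw [hX, mem_filter] at hi
    push Not at hi
    simp only [hz]
    rw [hi (mem_univ i)]
    simp
  have hz1 : ∀ i ∈ X, z i = 1 ∨ (z i = 2 ∧ ¬ ((i : ℕ) : ℝ) ≤ 21 / 10 * y) := by
    intro i hi
    rw [hX, mem_filter] at hi
    have h1 := hx2 i
    have h2 := hi.2
    simp only [hz]
    by_cases h3 : ((i : ℕ) : ℝ) ≤ 21 / 10 * y
    · have h4 := hx1 i h3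
      left
      obtain ⟨h5, h6⟩ := h4
      interval_cases hxi : (x i) <;> interval_cases hxi' : (x' i) <;>
        first | exact absurd rfl h2 | norm_num
    · obtain ⟨h5, h6⟩ := h1
      interval_cases hxi : (x i) <;> interval_cases hxi' : (x' i) <;>
        first | exact absurd rfl h2 | (left; norm_num; done) | (right; norm_num; linarith)
  have hzsum : ∀ g : ↥(PP y) → ℝ, ∑ i, z i * g i = ∑ i ∈ X, z i * g i := by
    intro g
    symm
    apply Finset.sum_subset (Finset.subset_univ X)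
    intro i _ hi
    rw [hzX i hi, zero_mul]
  have hu2' : 2 * (u : ℝ) = ∑ i ∈ X, z i := by
    rw [hu2]
    have := hzsum fun _ => 1
    simp only [mul_one] at this
    exact this
  have hsX : (s : ℝ) = ∑ i ∈ X, (1 : ℝ) := by
    rw [Finset.sum_const, nsmul_eq_mul, mul_one]
    exact_mod_cast hscard.symm
  have hsR : (1 : ℝ) ≤ s := by exact_mod_cast hs1
  have hsu : (s : ℝ) ≤ 2 * u := by
    rw [hu2', hsX]
    apply Finset.sum_le_sum
    intro i hi
    rcases hz1 i hi with h | h
    · rw [h]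
    · rw [h.1]
      norm_num
  have hus : (u : ℝ) ≤ s := by
    have h1 : 2 * (u : ℝ) ≤ 2 * s := by
      rw [hu2', hsX, Finset.mul_sum]
      apply Finset.sum_le_sum
      intro i hi
      rcases hz1 i hi with h | h
      · rw [h]
        norm_num
      · rw [h.1]
        norm_num
    linarith
  have hlogp0 : ∀ i : ↥(PP y), (0 : ℝ) < ((i : ℕ) : ℝ) := fun i => by
    exact_mod_cast (hPmem i).1.pos
  have h31 : (1 : ℝ) ≤ Real.log 3 := by
    rw [Real.le_log_iff_exp_le (by norm_num)]
    exact (Real.exp_one_lt_d9.trans (by norm_num)).le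
  have hLs : (s : ℝ) ≤ L := by
    rw [hsX]
    apply Finset.sum_le_sum
    intro i _
    exact h31.trans (Real.log_le_log (by norm_num) (by exact_mod_cast (hPmem i).2.1))
  have hL2 : L ≤ s * (Y + Real.log 1000) := by
    rw [hsX, Finset.sum_mul]
    apply Finset.sum_le_sum
    intro i _
    have h1 : ((i : ℕ) : ℝ) ≤ 1000 * y := by exact_mod_cast (hPmem i).2.2
    have h2 := Real.log_le_log (hlogp0 i) h1
    rw [Real.log_mul (by norm_num) hy0.ne', ← hYy] at h2
    linarith
  -- the loss at the small primes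
  set w : ℕ → ℝ := fun p => max (Y - Real.log p) 0 with hw
  have hwle : ∑ i ∈ X, w i ≤ δ₁ * y := by
    refine le_trans ?_ hA4
    have h1 : ∑ i ∈ X, w i ≤ ∑ p ∈ PP y, w p := by
      rw [← Finset.sum_coe_sort (PP y) w]
      exact Finset.sum_le_sum_of_subset_of_nonneg (Finset.subset_univ _)
        fun i _ _ => le_max_right _ _
    have h2 : ∑ p ∈ PP y, w p ≤ ∑ p ∈ Nat.primesLE y, (Real.log y - Real.log p) := by
      have h3 : ∑ p ∈ PP y, w p = ∑ p ∈ (PP y).filter (fun p => p ≤ y), w p := by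
        symm
        apply Finset.sum_subset (Finset.filter_subset _ _)
        intro p hp hp'
        rw [mem_filter] at hp'
        push Not at hp'
        have h4 := hp' hp
        have h5 : (y : ℝ) ≤ p := by exact_mod_cast h4.le
        have h6 := Real.log_le_log hy0 h5
        apply max_eq_right
        rw [hYy]
        linarith
      rw [h3]
      have h4 : (PP y).filter (fun p => p ≤ y) ⊆ Nat.primesLE y := by
        intro p hp
        rw [mem_filter, PP, Finset.mem_erase, Nat.mem_primesLE] at hp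
        rw [Nat.mem_primesLE]
        exact ⟨hp.2, hp.1.2.2⟩
      have h5 : ∀ p ∈ Nat.primesLE y, 0 ≤ Real.log y - Real.log p := by
        intro p hp
        rw [Nat.mem_primesLE] at hp
        have e1 : (0 : ℝ) < p := by exact_mod_cast hp.2.pos
        have e2 : (p : ℝ) ≤ y := by exact_mod_cast hp.1
        have := Real.log_le_log e1 e2
        linarith
      calc ∑ p ∈ (PP y).filter (fun p => p ≤ y), w p
          = ∑ p ∈ (PP y).filter (fun p => p ≤ y), (Real.log y - Real.log p) := by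
            apply Finset.sum_congr rfl
            intro p hp
            have := h5 p (h4 hp)
            simp only [hw]
            rw [hYy]
            exact max_eq_left this
        _ ≤ _ := Finset.sum_le_sum_of_subset_of_nonneg h4 fun p hp _ => h5 p hp
    refine (h1.trans h2).trans (le_of_eq ?_)
    rw [Finset.sum_sub_distrib, Finset.sum_const, nsmul_eq_mul,
      Nat.primesLE_card_eq_primeCounting, Chebyshev.theta_eq_sum_primesLE_log]
  have hL1 : s * Y - δ₁ * y ≤ L := by
    have h1 : s * Y - L ≤ ∑ i ∈ X, w i := by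
      rw [hsX, Finset.sum_mul, ← Finset.sum_sub_distrib]
      apply Finset.sum_le_sum
      intro i _
      rw [one_mul]
      exact le_max_left _ _
    linarith
  have hL'1 : 2 * u * Y - δ₁ * y ≤ L' := by
    have h1 : 2 * u * Y - L' ≤ ∑ i ∈ X, w i := by
      rw [hu2', hL', hzsum, Finset.sum_mul, ← Finset.sum_sub_distrib]
      apply Finset.sum_le_sum
      intro i hi
      rcases hz1 i hi with h | h
      · rw [h, one_mul, one_mul]
        exact le_max_left _ _
      · have h2 : (y : ℝ) ≤ ((i : ℕ) : ℝ) := by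
          have := h.2
          push Not at this
          linarith
        have h3 := Real.log_le_log hy0 h2
        have h4 : z i * Y - z i * Real.log ((i : ℕ) : ℝ) ≤ 0 := by
          rw [h.1, hYy]
          linarith
        exact h4.trans (le_max_right _ _)
    linarith
  have hCL : L ≤ s * Y + C - 43 / 10 * u + 43 / 10 / 2 * s := by
    have h1 : L ≤ ∑ i ∈ X, (1 * Y + lam y i * ((x i : ℝ) - x' i) ^ 2 -
        43 / 10 / 2 * z i + 43 / 10 / 2 * 1) := by
      apply Finset.sum_le_sum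
      intro i hi
      have hsq : ((x i : ℝ) - x' i) ^ 2 = z i ^ 2 := (sq_abs _).symm
      have hlam : Real.log ((i : ℕ) : ℝ) - Real.log y ≤ lam y i := le_max_left _ _
      rw [hsq]
      rcases hz1 i hi with h | h
      · rw [h, hYy]
        linarith
      · have h2 : 21 / 10 * (y : ℝ) ≤ ((i : ℕ) : ℝ) := by
          have := h.2
          push Not at this
          exact this.le
        have h3 := Real.log_le_log (by positivity) h2
        rw [Real.log_mul (by norm_num) hy0.ne'] at h3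
        have h4 := log_21_ge
        rw [h.1, hYy]
        linarith
    have h2 : ∑ i ∈ X, (1 * Y + lam y i * ((x i : ℝ) - x' i) ^ 2 -
        43 / 10 / 2 * z i + 43 / 10 / 2 * 1) =
        s * Y + ∑ i ∈ X, lam y i * ((x i : ℝ) - x' i) ^ 2 - 43 / 10 / 2 * (2 * u) +
          43 / 10 / 2 * s := by
      rw [Finset.sum_add_distrib, Finset.sum_sub_distrib, Finset.sum_add_distrib,
        ← Finset.sum_mul, ← Finset.mul_sum, ← Finset.mul_sum, ← hsX, ← hu2']
    have h3 : ∑ i ∈ X, lam y i * ((x i : ℝ) - x' i) ^ 2 ≤ C :=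
      Finset.sum_le_sum_of_subset_of_nonneg (Finset.subset_univ _)
        fun i _ _ => mul_nonneg (lam_nonneg y i) (sq_nonneg _)
    linarith
  -- the parameters
  have htP : (t : ℝ) ≤ 14 * (PP y).card := by exact_mod_cast ht
  have hCle : C ≤ S1 y / 2 + t + 1 + 1 / 4000 * κ := by
    push_cast at hcost
    set A : ℝ := S1 y / 2 + t + 1 with hA
    have h1 : A ≤ 17600 * κ := by linarith
    change (100000000 - 1) * C ≤ 100000000 * A at hcost
    linarith
  have hmain : (2.113 - 2 * (1 / 2000)) * κ + C ≤ (m - 1) * Real.log 2 := by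
    linarith
  have hmB' : (m : ℝ) * Real.log 2 ≤ 2002 * κ := by linarith
  have hfin := ineq (κ := κ) (u := u) (s := s) (y := y) (Y := Y) (L := L) (L' := L') (G := G)
    (C := C) (m := m) (V := 2.113) (K := 43 / 10) (δ := 1 / 2000) (δ₁ := δ₁) (B := 2002)
    (W := 1000) (η := 1 / (16 * 1000)) hsR hκ0 hy0 hY1 hYy hκ (by norm_num) (by norm_num)
    (by norm_num) rfl (by norm_num) (by norm_num) hsu hus (by norm_num) hL1 hL2 hL'1 hLs hCL hC0
    hmain hmB' hG1 hG2 hδ₁ (by norm_num) hA6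
  refine ⟨u, m, ?_, a, b, c, ha, hb, habc, hcop, h2m, hlogc, hg1, ?_⟩
  · linarith
  · refine le_trans ?_ hest
    refine le_trans ?_ hfin
    have h1 : (0.002 : ℝ) ≤ min (2.113 - 2 * (1 / 2000) -
        2 / 3 * Real.exp (43 / 10 / 2 + 1 / 2000 - 1)) (1 / 10) := by
      apply le_min _ (by norm_num)
      have := exp_bound_main
      linarith
    have h2 : 0.002 * κ ≤ min (2.113 - 2 * (1 / 2000) -
        2 / 3 * Real.exp (43 / 10 / 2 + 1 / 2000 - 1)) (1 / 10) * κ := by gcongr
    have h3 : (s : ℝ) ≤ 1001 * κ := by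
      have h4 : s ≤ (PP y).card := by
        rw [← hscard]
        calc X.card ≤ (univ : Finset ↥(PP y)).card := Finset.card_le_card (Finset.subset_univ _)
          _ = (PP y).card := by rw [card_univ, Fintype.card_coe]
      have h5 : (s : ℝ) ≤ (PP y).card := by exact_mod_cast h4
      linarith
    linarith

end Pool.Agent.V8H8.TC
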