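import Mathlib

/-!
# The two integrals
-/

set_option autoImplicit false

namespace Pool.Agent.V8H8.TC

open MeasureTheory Set

/-- `log (1 + x) ≥ x - x²/2 + x³/3 - x⁴/4` -/
theorem log_one_add_ge {x : ℝ} (hx : 0 ≤ x) :
    x - x ^ 2 / 2 + x ^ 3 / 3 - x ^ 4 / 4 ≤ Real.log (1 + x) := by
  set g : ℝ → ℝ := fun x => Real.log (1 + x) - (x - x ^ 2 / 2 + x ^ 3 / 3 - x ^ 4 / 4) with hg
  have hder : ∀ t : ℝ, 0 ≤ t → HasDerivAt g (t ^ 4 / (1 + t)) t := by
    intro t ht
    have h1 : HasDerivAt (fun x : ℝ => Real.log (1 + x)) (1 / (1 + t)) t := by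
      have h2 : HasDerivAt (fun x : ℝ => 1 + x) 1 t := by
        simpa using (hasDerivAt_id t).const_add 1
      exact h2.log (by linarith)
    have h2 : HasDerivAt (fun x : ℝ => x - x ^ 2 / 2 + x ^ 3 / 3 - x ^ 4 / 4)
        (1 - t + t ^ 2 - t ^ 3) t := by
      have e1 := hasDerivAt_id' t
      have e2 := (hasDerivAt_pow 2 t).div_const 2
      have e3 := (hasDerivAt_pow 3 t).div_const 3
      have e4 := (hasDerivAt_pow 4 t).div_const 4
      refine (((e1.fun_sub e2).fun_add e3).fun_sub e4).congr_deriv ?_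
      norm_num
    refine (h1.fun_sub h2).congr_deriv ?_
    have : (1 + t) ≠ 0 := by positivity
    field_simp
    ring
  have hmono : MonotoneOn g (Ici 0) := by
    apply monotoneOn_of_deriv_nonneg (convex_Ici 0)
    · intro t ht
      exact (hder t ht).continuousAt.continuousWithinAt
    · intro t ht
      rw [interior_Ici] at ht
      exact (hder t (le_of_lt ht)).differentiableAt.differentiableWithinAt
    · intro t ht
      rw [interior_Ici] at ht
      have ht' : (0 : ℝ) < t := ht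
      rw [(hder t ht'.le).deriv]
      positivity
  have h1 := hmono (self_mem_Ici) hx hx
  simp only [hg] at h1
  norm_num at h1
  linarith

/-- the antiderivative -/
theorem anti {v : ℝ} (hv : 0 < v) :
    HasDerivAt (fun v : ℝ => -2 / v + 2 / 3 / v ^ 3 - 8 / 15 / v ^ 5 + 4 / 7 / v ^ 7)
      (2 / v ^ 2 - 2 / v ^ 4 + 8 / 3 / v ^ 6 - 4 / v ^ 8) v := by
  have key : ∀ (c : ℝ) (n : ℕ), HasDerivAt (fun v : ℝ => c / v ^ (n + 1))
      (-(c * (n + 1)) / v ^ (n + 2)) v := by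
    intro c n
    have h1 := ((hasDerivAt_pow (n + 1) v).fun_inv (by positivity)).const_mul c
    have h2 : HasDerivAt (fun v : ℝ => c / v ^ (n + 1))
        (c * (-(((n + 1 : ℕ) : ℝ) * v ^ (n + 1 - 1)) / (v ^ (n + 1)) ^ 2)) v := by
      simpa only [div_eq_mul_inv] using h1
    refine h2.congr_deriv ?_
    rw [Nat.add_sub_cancel]
    push_cast
    field_simp
    ring
  have e1 := key (-2) 0
  have e3 := key (2 / 3) 2
  have e5 := key (8 / 15) 4
  have e7 := key (4 / 7) 6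
  simp only [zero_add, pow_one] at e1
  refine (((e1.fun_add e3).fun_sub e5).fun_add e7).congr_deriv ?_
  norm_num
  ring

theorem integral_tail :
    (0.8882 : ℝ) ≤ ∫ v in (21 / 10 : ℝ)..1000, Real.log (1 + 2 / v ^ 2) := by
  have hle : (21 / 10 : ℝ) ≤ 1000 := by norm_num
  have hpos : ∀ v ∈ Icc (21 / 10 : ℝ) 1000, 0 < v := fun v hv => by linarith [hv.1]
  have hcont1 : ContinuousOn (fun v : ℝ => 2 / v ^ 2 - 2 / v ^ 4 + 8 / 3 / v ^ 6 - 4 / v ^ 8)
      (uIcc (21 / 10 : ℝ) 1000) := by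
    rw [uIcc_of_le hle]
    have hne : ∀ n : ℕ, ∀ v ∈ Icc (21 / 10 : ℝ) 1000, v ^ n ≠ 0 :=
      fun n v hv => pow_ne_zero _ (hpos v hv).ne'
    have hk : ∀ (c : ℝ) (n : ℕ), ContinuousOn (fun v : ℝ => c / v ^ n) (Icc (21 / 10 : ℝ) 1000) :=
      fun c n => continuousOn_const.div (continuousOn_pow n) (hne n)
    exact (((hk 2 2).sub (hk 2 4)).add (hk (8 / 3) 6)).sub (hk 4 8)
  have hcont2 : ContinuousOn (fun v : ℝ => Real.log (1 + 2 / v ^ 2))
      (uIcc (21 / 10 : ℝ) 1000) := by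
    rw [uIcc_of_le hle]
    apply ContinuousOn.log
    · apply ContinuousOn.add continuousOn_const
      exact continuousOn_const.div (continuousOn_pow 2)
        fun v hv => pow_ne_zero _ (hpos v hv).ne'
    · intro v hv
      have := hpos v hv
      positivity
  have h1 : ∫ v in (21 / 10 : ℝ)..1000, (2 / v ^ 2 - 2 / v ^ 4 + 8 / 3 / v ^ 6 - 4 / v ^ 8) =
      (-2 / 1000 + 2 / 3 / 1000 ^ 3 - 8 / 15 / 1000 ^ 5 + 4 / 7 / 1000 ^ 7) -
      (-2 / (21 / 10) + 2 / 3 / (21 / 10) ^ 3 - 8 / 15 / (21 / 10) ^ 5 +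
        4 / 7 / (21 / 10) ^ 7) := by
    apply intervalIntegral.integral_eq_sub_of_hasDerivAt
      (f := fun v : ℝ => -2 / v + 2 / 3 / v ^ 3 - 8 / 15 / v ^ 5 + 4 / 7 / v ^ 7)
    · intro v hv
      rw [uIcc_of_le hle] at hv
      exact anti (hpos v hv)
    · exact hcont1.intervalIntegrable
  have h2 : ∫ v in (21 / 10 : ℝ)..1000, (2 / v ^ 2 - 2 / v ^ 4 + 8 / 3 / v ^ 6 - 4 / v ^ 8) ≤
      ∫ v in (21 / 10 : ℝ)..1000, Real.log (1 + 2 / v ^ 2) := by
    apply intervalIntegral.integral_mono_on hle hcont1.intervalIntegrable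
      hcont2.intervalIntegrable
    intro v hv
    have hv0 := hpos v hv
    have h3 := log_one_add_ge (x := 2 / v ^ 2) (by positivity)
    refine le_trans (le_of_eq ?_) h3
    field_simp
    ring
  rw [h1] at h2
  refine le_trans ?_ h2
  norm_num

theorem integral_head :
    (∫ v in (1 : ℝ)..(21 / 10), Real.log v) ≤ 0.46062 := by
  rw [integral_log]
  have h1 : Real.log (21 / 10 : ℝ) = Real.log 2 + Real.log (21 / 20) := by
    rw [← Real.log_mul (by norm_num) (by norm_num)]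
    norm_num
  have h2 := Real.log_two_lt_d9
  have h3 : Real.log (21 / 20 : ℝ) ≤ 21 / 20 - 1 := Real.log_le_sub_one_of_pos (by norm_num)
  rw [Real.log_one, h1]
  linarith

end Pool.Agent.V8H8.TC
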