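import Pool.Agent.Cov.PNT

/-!
# Sums of a monotone function over the primes between `a y` and `b y`
-/

set_option autoImplicit false

namespace Pool.Agent.V8H8.TC

open Filter Topology Finset MeasureTheory

/-- `log y / log (v y) → 1` -/
theorem log_ratio {v : ℝ} (hv : 0 < v) :
    Tendsto (fun y : ℝ => Real.log y / Real.log (v * y)) atTop (𝓝 1) := by
  have h1 : Tendsto (fun y : ℝ => 1 / (Real.log v / Real.log y + 1)) atTop (𝓝 (1 / (0 + 1))) := by
    apply Tendsto.div tendsto_const_nhds _ (by norm_num)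
    exact (Tendsto.const_div_atTop Real.tendsto_log_atTop _).add tendsto_const_nhds
  rw [zero_add, div_one] at h1
  refine h1.congr' ?_
  have h2 : Tendsto (fun y : ℝ => Real.log (v * y)) atTop atTop :=
    Real.tendsto_log_atTop.comp (tendsto_id.const_mul_atTop hv)
  filter_upwards [eventually_gt_atTop (1 : ℝ), h2.eventually_gt_atTop 0] with y hy h3
  have hl : 0 < Real.log y := Real.log_pos hy
  rw [Real.log_mul hv.ne' (by linarith)] at h3 ⊢
  have h4 : Real.log v / Real.log y + 1 = (Real.log v + Real.log y) / Real.log y := by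
    field_simp
  rw [h4]
  field_simp

/-- `π (v y) log y / y → v` -/
theorem pi_lim {v : ℝ} (hv : 0 < v) :
    Tendsto (fun y : ℝ => (Nat.primeCounting ⌊v * y⌋₊ : ℝ) * (Real.log y / y)) atTop (𝓝 v) := by
  have h1 := Pool.Agent.Cov.PNT.pi_tendsto.comp
    (tendsto_id.const_mul_atTop hv : Tendsto (fun y : ℝ => v * y) atTop atTop)
  have h2 := (h1.mul (log_ratio hv)).mul_const v
  rw [one_mul, one_mul] at h2
  refine h2.congr' ?_
  have h3 : Tendsto (fun y : ℝ => Real.log (v * y)) atTop atTop :=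
    Real.tendsto_log_atTop.comp (tendsto_id.const_mul_atTop hv)
  filter_upwards [eventually_gt_atTop (0 : ℝ), h3.eventually_gt_atTop 0] with y hy h4
  simp only [Function.comp_apply]
  field_simp

/-- the integral of an antitone function is at most the upper Riemann sum -/
theorem integral_le_riemann {f : ℝ → ℝ} {a b : ℝ} (hab : a ≤ b) (hf : AntitoneOn f (Set.Icc a b))
    {n : ℕ} (hn : 0 < n) :
    ∫ v in a..b, f v ≤ (b - a) / n * (∑ i ∈ range n, f (a + (b - a) / n * (i + 1 : ℕ))) +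
      (b - a) / n * (f a - f b) := by
  have hnR : (0 : ℝ) < n := by exact_mod_cast hn
  set h : ℝ := (b - a) / n with hh
  have hh0 : 0 ≤ h := by
    rw [hh]
    apply div_nonneg (by linarith) hnR.le
  have hhn : h * n = b - a := by
    rw [hh]
    field_simp
  set x : ℕ → ℝ := fun i => a + h * i with hx
  have hx0 : x 0 = a := by simp [hx]
  have hxn : x n = b := by
    simp only [hx]
    linarith
  have hmem : ∀ i ≤ n, x i ∈ Set.Icc a b := by
    intro i hi
    have hiR : (i : ℝ) ≤ n := by exact_mod_cast hi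
    have h1 : h * i ≤ h * n := by gcongr
    have h2 : 0 ≤ h * i := by positivity
    refine ⟨?_, ?_⟩
    · simp only [hx]
      linarith
    · simp only [hx]
      linarith
  have hstep : ∀ i, x i ≤ x (i + 1) := by
    intro i
    simp only [hx]
    push_cast
    nlinarith
  have hdiff : ∀ i, x (i + 1) - x i = h := by
    intro i
    simp only [hx]
    push_cast
    ring
  have hanti : ∀ i < n, AntitoneOn f (Set.Icc (x i) (x (i + 1))) := by
    intro i hi
    apply hf.mono
    exact Set.Icc_subset_Icc (hmem i hi.le).1 (hmem (i + 1) hi).2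
  have hint : ∀ i < n, IntervalIntegrable f volume (x i) (x (i + 1)) := by
    intro i hi
    apply AntitoneOn.intervalIntegrable
    rw [Set.uIcc_of_le (hstep i)]
    exact hanti i hi
  have h1 : ∫ v in a..b, f v = ∑ i ∈ range n, ∫ v in (x i)..(x (i + 1)), f v := by
    rw [intervalIntegral.sum_integral_adjacent_intervals hint, hx0, hxn]
  have h2 : ∀ i ∈ range n, ∫ v in (x i)..(x (i + 1)), f v ≤ h * f (x i) := by
    intro i hi
    rw [mem_range] at hi
    have h3 : ∫ _ in (x i)..(x (i + 1)), f (x i) = h * f (x i) := by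
      rw [intervalIntegral.integral_const, smul_eq_mul, hdiff]
    rw [← h3]
    apply intervalIntegral.integral_mono_on (hstep i) (hint i hi) (by simp)
    intro v hv
    exact hanti i hi ⟨le_rfl, hstep i⟩ hv hv.1
  rw [h1]
  refine (Finset.sum_le_sum h2).trans ?_
  rw [← Finset.mul_sum, ← mul_add]
  apply mul_le_mul_of_nonneg_left _ hh0
  have h3 : ∑ i ∈ range n, f (x i) + f (x n) = ∑ i ∈ range n, f (x (i + 1)) + f (x 0) := by
    rw [← Finset.sum_range_succ, Finset.sum_range_succ']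
  rw [hx0, hxn] at h3
  have h4 : ∑ i ∈ range n, f (x (i + 1)) = ∑ i ∈ range n, f (a + h * ((i + 1 : ℕ) : ℝ)) := rfl
  rw [← h4]
  linarith

/-- sums of an antitone function over the primes between `a y` and `b y` -/
theorem riemann {f : ℝ → ℝ} {a b : ℝ} (ha : 0 < a) (hab : a ≤ b)
    (hf : AntitoneOn f (Set.Icc a b)) {ε : ℝ} (hε : 0 < ε) :
    ∀ᶠ y : ℝ in atTop, ((∫ v in a..b, f v) - ε) * (y / Real.log y) ≤
      ∑ p ∈ Nat.primesLE ⌊b * y⌋₊ \ Nat.primesLE ⌊a * y⌋₊, f (p / y) := by
  obtain ⟨n, hn⟩ := exists_nat_gt ((b - a) * (f a - f b) / (ε / 2))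
  have hfab : 0 ≤ f a - f b := by
    have := hf (Set.left_mem_Icc.mpr hab) (Set.right_mem_Icc.mpr hab) hab
    linarith
  have hn0 : 0 < n := by
    have h1 : 0 ≤ (b - a) * (f a - f b) / (ε / 2) := by
      have : 0 ≤ b - a := by linarith
      positivity
    have h2 : (0 : ℝ) < n := lt_of_le_of_lt h1 hn
    exact_mod_cast h2
  have hnR : (0 : ℝ) < n := by exact_mod_cast hn0
  have hI := integral_le_riemann hab hf hn0
  set h : ℝ := (b - a) / n with hh
  have hh0 : 0 ≤ h := by
    rw [hh]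
    apply div_nonneg (by linarith) hnR.le
  have hhn : h * n = b - a := by
    rw [hh]
    field_simp
  have herr : h * (f a - f b) < ε / 2 := by
    rw [div_lt_iff₀ (by linarith)] at hn
    rw [hh, div_mul_eq_mul_div, div_lt_iff₀ hnR]
    linarith
  set x : ℕ → ℝ := fun i => a + h * i with hx
  have hx0 : x 0 = a := by simp [hx]
  have hxn : x n = b := by
    simp only [hx]
    linarith
  have hmono : Monotone x := by
    intro i j hij
    simp only [hx]
    have : (i : ℝ) ≤ j := by exact_mod_cast hij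
    gcongr
  have hmem : ∀ i ≤ n, x i ∈ Set.Icc a b := by
    intro i hi
    exact ⟨by rw [← hx0]; exact hmono (Nat.zero_le _), by rw [← hxn]; exact hmono hi⟩
  have hxpos : ∀ i ≤ n, 0 < x i := fun i hi => lt_of_lt_of_le ha (hmem i hi).1
  -- the limit
  have hlim : Tendsto (fun y : ℝ => ∑ i ∈ range n, f (x (i + 1)) *
      ((Nat.primeCounting ⌊x (i + 1) * y⌋₊ : ℝ) * (Real.log y / y) -
        (Nat.primeCounting ⌊x i * y⌋₊ : ℝ) * (Real.log y / y))) atTop
      (𝓝 (∑ i ∈ range n, f (x (i + 1)) * (x (i + 1) - x i))) := by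
    apply tendsto_finsetSum
    intro i hi
    rw [mem_range] at hi
    exact ((pi_lim (hxpos (i + 1) hi)).sub (pi_lim (hxpos i hi.le))).const_mul _
  have hval : ∑ i ∈ range n, f (x (i + 1)) * (x (i + 1) - x i) =
      h * ∑ i ∈ range n, f (a + h * ((i + 1 : ℕ) : ℝ)) := by
    rw [Finset.mul_sum]
    apply Finset.sum_congr rfl
    intro i _
    have : x (i + 1) - x i = h := by
      simp only [hx]
      push_cast
      ring
    rw [this]
    simp only [hx]
    ring
  have hlt : (∫ v in a..b, f v) - ε < ∑ i ∈ range n, f (x (i + 1)) * (x (i + 1) - x i) := by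
    rw [hval]
    linarith
  filter_upwards [hlim.eventually (lt_mem_nhds hlt), eventually_gt_atTop (1 : ℝ)] with y hy hy1
  have hy0 : 0 < y := by linarith
  have hl : 0 < Real.log y := Real.log_pos hy1
  have hk : 0 < Real.log y / y := by positivity
  have h1 : ∀ i ∈ range n, f (x (i + 1)) *
      ((Nat.primeCounting ⌊x (i + 1) * y⌋₊ : ℝ) - (Nat.primeCounting ⌊x i * y⌋₊ : ℝ)) ≤
      ∑ p ∈ Nat.primesLE ⌊x (i + 1) * y⌋₊, f (p / y) -
        ∑ p ∈ Nat.primesLE ⌊x i * y⌋₊, f (p / y) := by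
    intro i hi
    rw [mem_range] at hi
    have hsub : Nat.primesLE ⌊x i * y⌋₊ ⊆ Nat.primesLE ⌊x (i + 1) * y⌋₊ := by
      intro p hp
      rw [Nat.mem_primesLE] at hp ⊢
      refine ⟨hp.1.trans (Nat.floor_le_floor ?_), hp.2⟩
      have := hmono (Nat.le_succ i)
      gcongr
    have h2 := Finset.sum_sdiff hsub (f := fun p : ℕ => f (p / y))
    have h3 := Finset.card_sdiff_add_card_eq_card hsub
    rw [Nat.primesLE_card_eq_primeCounting, Nat.primesLE_card_eq_primeCounting] at h3
    have h4 : ((Nat.primesLE ⌊x (i + 1) * y⌋₊ \ Nat.primesLE ⌊x i * y⌋₊).card : ℝ) =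
        (Nat.primeCounting ⌊x (i + 1) * y⌋₊ : ℝ) - (Nat.primeCounting ⌊x i * y⌋₊ : ℝ) := by
      have h5 : ((Nat.primesLE ⌊x (i + 1) * y⌋₊ \ Nat.primesLE ⌊x i * y⌋₊).card : ℝ) +
          (Nat.primeCounting ⌊x i * y⌋₊ : ℝ) = (Nat.primeCounting ⌊x (i + 1) * y⌋₊ : ℝ) := by
        exact_mod_cast h3
      linarith
    rw [← h4, ← h2, add_sub_cancel_right]
    calc f (x (i + 1)) *
          ((Nat.primesLE ⌊x (i + 1) * y⌋₊ \ Nat.primesLE ⌊x i * y⌋₊).card : ℝ)
        = ∑ _ ∈ Nat.primesLE ⌊x (i + 1) * y⌋₊ \ Nat.primesLE ⌊x i * y⌋₊, f (x (i + 1)) := by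
          rw [Finset.sum_const, nsmul_eq_mul, mul_comm]
      _ ≤ _ := by
          apply Finset.sum_le_sum
          intro p hp
          rw [Finset.mem_sdiff, Nat.mem_primesLE, Nat.mem_primesLE] at hp
          have h5 : (p : ℝ) ≤ x (i + 1) * y :=
            (Nat.le_floor_iff (mul_nonneg (hxpos (i + 1) hi).le hy0.le)).mp hp.1.1
          have h6 : x i * y < (p : ℝ) := by
            by_contra hcon
            rw [not_lt] at hcon
            exact hp.2 ⟨Nat.le_floor hcon, hp.1.2⟩
          have h7 : (p : ℝ) / y ≤ x (i + 1) := by rwa [div_le_iff₀ hy0]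
          have h8 : x i ≤ (p : ℝ) / y := by rw [le_div_iff₀ hy0]; exact h6.le
          exact hf ⟨(hmem i hi.le).1.trans h8, h7.trans (hmem (i + 1) hi).2⟩
            (hmem (i + 1) hi) h7
  have h2 := Finset.sum_le_sum h1
  rw [Finset.sum_range_sub (fun i => ∑ p ∈ Nat.primesLE ⌊x i * y⌋₊, f (p / y)), hx0, hxn] at h2
  have hsub : Nat.primesLE ⌊a * y⌋₊ ⊆ Nat.primesLE ⌊b * y⌋₊ := by
    intro p hp
    rw [Nat.mem_primesLE] at hp ⊢
    refine ⟨hp.1.trans (Nat.floor_le_floor ?_), hp.2⟩
    gcongr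
  have h3 := Finset.sum_sdiff hsub (f := fun p : ℕ => f (p / y))
  have h4 : (∫ v in a..b, f v) - ε < (∑ i ∈ range n, f (x (i + 1)) *
      ((Nat.primeCounting ⌊x (i + 1) * y⌋₊ : ℝ) - (Nat.primeCounting ⌊x i * y⌋₊ : ℝ))) *
        (Real.log y / y) := by
    refine lt_of_lt_of_eq hy ?_
    rw [Finset.sum_mul]
    apply Finset.sum_congr rfl
    intro i _
    ring
  have h5 : ((∫ v in a..b, f v) - ε) * (y / Real.log y) <
      ∑ i ∈ range n, f (x (i + 1)) *
      ((Nat.primeCounting ⌊x (i + 1) * y⌋₊ : ℝ) - (Nat.primeCounting ⌊x i * y⌋₊ : ℝ)) := by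
    have h6 := mul_lt_mul_of_pos_right h4 (show 0 < y / Real.log y by positivity)
    refine lt_of_lt_of_eq h6 ?_
    have h7 : Real.log y / y * (y / Real.log y) = 1 := by
      field_simp
    rw [mul_assoc, h7, mul_one]
  linarith

end Pool.Agent.V8H8.TC
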