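import Pool.Agent.V8H8.TC.Select
import Pool.Agent.V8H8.TC.Riem
import Pool.Agent.V8H8.TC.Integ

/-!
# The parameters, for large `y`
-/

set_option autoImplicit false

namespace Pool.Agent.V8H8.TC

open Filter Topology Finset

/-- the number of the primes `≤ 2.1 y` -/
theorem card_P1 {y : ℕ} : (Nat.primeCounting ⌊(21 / 10 : ℝ) * y⌋₊ : ℝ) - 1 ≤ (P1 y).card := by
  classical
  have h1 : (Nat.primesLE ⌊(21 / 10 : ℝ) * y⌋₊).erase 2 ⊆ P1 y := by
    intro p hp
    rw [mem_erase, Nat.mem_primesLE] at hp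
    have h2 : (p : ℝ) ≤ 21 / 10 * y := (Nat.le_floor_iff (by positivity)).mp hp.2.1
    rw [P1, mem_filter, PP, mem_erase, Nat.mem_primesLE]
    refine ⟨⟨hp.1, ?_, hp.2.2⟩, h2⟩
    have h3 : (p : ℝ) ≤ 1000 * y := by
      have : (0 : ℝ) ≤ y := by positivity
      linarith
    exact_mod_cast h3
  have h2 := Finset.card_le_card h1
  have h3 := Finset.pred_card_le_card_erase (s := Nat.primesLE ⌊(21 / 10 : ℝ) * y⌋₊) (a := 2)
  rw [Nat.primesLE_card_eq_primeCounting] at h3
  have h4 : Nat.primeCounting ⌊(21 / 10 : ℝ) * y⌋₊ ≤ (P1 y).card + 1 := by omega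
  have h5 : (Nat.primeCounting ⌊(21 / 10 : ℝ) * y⌋₊ : ℝ) ≤ (P1 y).card + 1 := by exact_mod_cast h4
  linarith

/-- the number of all primes -/
theorem card_PP {y : ℕ} : ((PP y).card : ℝ) ≤ (Nat.primeCounting ⌊(1000 : ℝ) * y⌋₊ : ℝ) := by
  have h1 : ⌊(1000 : ℝ) * y⌋₊ = 1000 * y := by
    have : (1000 : ℝ) * y = ((1000 * y : ℕ) : ℝ) := by push_cast; ring
    rw [this, Nat.floor_natCast]
  rw [h1, ← Nat.primesLE_card_eq_primeCounting]
  exact_mod_cast Finset.card_le_card (Finset.erase_subset _ _)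

/-- the weights of the small primes -/
theorem S1_le {y : ℕ} (hy : 0 < y) :
    S1 y ≤ -∑ p ∈ Nat.primesLE ⌊(21 / 10 : ℝ) * y⌋₊ \ Nat.primesLE ⌊(1 : ℝ) * y⌋₊,
      -Real.log (p / y) := by
  classical
  have hy0 : (0 : ℝ) < y := by exact_mod_cast hy
  rw [Finset.sum_neg_distrib, neg_neg, S1]
  have hpos : ∀ p ∈ Nat.primesLE ⌊(21 / 10 : ℝ) * y⌋₊ \ Nat.primesLE ⌊(1 : ℝ) * y⌋₊,
      (y : ℝ) < p ∧ lam y p = Real.log (p / y) := by
    intro p hp
    rw [Finset.mem_sdiff, Nat.mem_primesLE, Nat.mem_primesLE, one_mul, Nat.floor_natCast] at hp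
    have h1 : y < p := by
      by_contra hcon
      exact hp.2 ⟨not_lt.mp hcon, hp.1.2⟩
    have h2 : (y : ℝ) < p := by exact_mod_cast h1
    refine ⟨h2, ?_⟩
    rw [lam, Real.log_div (by linarith) hy0.ne']
    apply max_eq_left
    have := Real.log_le_log hy0 h2.le
    linarith
  have hsub : ∀ p ∈ P1 y, p ∉ Nat.primesLE ⌊(21 / 10 : ℝ) * y⌋₊ \ Nat.primesLE ⌊(1 : ℝ) * y⌋₊ →
      lam y p = 0 := by
    intro p hp hp'
    rw [P1, mem_filter, PP, mem_erase, Nat.mem_primesLE] at hp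
    rw [Finset.mem_sdiff, Nat.mem_primesLE, Nat.mem_primesLE, one_mul, Nat.floor_natCast] at hp'
    have h1 : p ≤ y := by
      by_contra hcon
      exact hp' ⟨⟨Nat.le_floor hp.2, hp.1.2.2⟩, fun h => hcon h.1⟩
    have h2 : (p : ℝ) ≤ y := by exact_mod_cast h1
    have h3 : (0 : ℝ) < p := by exact_mod_cast hp.1.2.2.pos
    apply max_eq_right
    have := Real.log_le_log h3 h2
    linarith
  set D := Nat.primesLE ⌊(21 / 10 : ℝ) * y⌋₊ \ Nat.primesLE ⌊(1 : ℝ) * y⌋₊ with hD
  have h1 : ∑ p ∈ P1 y, lam y p ≤ ∑ p ∈ P1 y ∩ D, lam y p := by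
    apply le_of_eq
    symm
    apply Finset.sum_subset inter_subset_left
    intro p hp hp'
    rw [mem_inter] at hp'
    exact hsub p hp fun h => hp' ⟨hp, h⟩
  refine h1.trans ?_
  calc ∑ p ∈ P1 y ∩ D, lam y p ≤ ∑ p ∈ D, lam y p :=
        Finset.sum_le_sum_of_subset_of_nonneg inter_subset_right fun p _ _ => lam_nonneg y p
    _ = ∑ p ∈ D, Real.log (p / y) := Finset.sum_congr rfl fun p hp => (hpos p hp).2

/-- the large primes -/
theorem LZ_ge {y : ℕ} (hy : 0 < y) :
    (P1 y).card * Real.log 2 +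
      ∑ p ∈ Nat.primesLE ⌊(1000 : ℝ) * y⌋₊ \ Nat.primesLE ⌊(21 / 10 : ℝ) * y⌋₊,
        Real.log (1 + 2 / ((p : ℝ) / y) ^ 2) ≤ LZ y := by
  classical
  have hy0 : (0 : ℝ) < y := by exact_mod_cast hy
  have hy1 : (1 : ℝ) ≤ y := by exact_mod_cast hy
  rw [LZ]
  apply add_le_add le_rfl
  have hsub : Nat.primesLE ⌊(1000 : ℝ) * y⌋₊ \ Nat.primesLE ⌊(21 / 10 : ℝ) * y⌋₊ ⊆ P2 y := by
    intro p hp
    rw [Finset.mem_sdiff, Nat.mem_primesLE, Nat.mem_primesLE] at hp
    have h1 : 21 / 10 * (y : ℝ) < p := by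
      by_contra hcon
      exact hp.2 ⟨Nat.le_floor (not_lt.mp hcon), hp.1.2⟩
    have h2 : (p : ℝ) ≤ 1000 * y := (Nat.le_floor_iff (by positivity)).mp hp.1.1
    rw [P2, mem_filter, PP, mem_erase, Nat.mem_primesLE]
    refine ⟨⟨?_, by exact_mod_cast h2, hp.1.2⟩, not_le.mpr h1⟩
    rintro rfl
    norm_num at h1
    linarith
  calc ∑ p ∈ Nat.primesLE ⌊(1000 : ℝ) * y⌋₊ \ Nat.primesLE ⌊(21 / 10 : ℝ) * y⌋₊,
        Real.log (1 + 2 / ((p : ℝ) / y) ^ 2)
      = ∑ p ∈ Nat.primesLE ⌊(1000 : ℝ) * y⌋₊ \ Nat.primesLE ⌊(21 / 10 : ℝ) * y⌋₊,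
        Real.log (1 + 2 * Real.exp (-(2 * lam y p))) := by
        apply Finset.sum_congr rfl
        intro p hp
        rw [Finset.mem_sdiff, Nat.mem_primesLE, Nat.mem_primesLE] at hp
        have h1 : 21 / 10 * (y : ℝ) < p := by
          by_contra hcon
          exact hp.2 ⟨Nat.le_floor (not_lt.mp hcon), hp.1.2⟩
        have h2 : (0 : ℝ) < p := by linarith
        have h3 : lam y p = Real.log (p / y) := by
          rw [lam, Real.log_div h2.ne' hy0.ne']
          apply max_eq_left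
          have := Real.log_le_log hy0 (show (y : ℝ) ≤ p by linarith)
          linarith
        have h4 : Real.exp (-(2 * lam y p)) = 1 / ((p : ℝ) / y) ^ 2 := by
          rw [h3, Real.exp_neg, ← Real.log_rpow (by positivity) 2, Real.exp_log (by positivity)]
          norm_num
        rw [h4]
        ring_nf
    _ ≤ _ := by
        apply Finset.sum_le_sum_of_subset_of_nonneg hsub
        intro p _ _
        apply Real.log_nonneg
        have := Real.exp_pos (-(2 * lam y p))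
        linarith

/-- `log v` -/
theorem anti_neg_log : AntitoneOn (fun v : ℝ => -Real.log v) (Set.Icc 1 (21 / 10)) := by
  intro a ha b _ hab
  have : (0 : ℝ) < a := by linarith [ha.1]
  have := Real.log_le_log this hab
  simp only
  linarith

theorem anti_tail : AntitoneOn (fun v : ℝ => Real.log (1 + 2 / v ^ 2))
    (Set.Icc (21 / 10) 1000) := by
  intro a ha b _ hab
  have h0 : (0 : ℝ) < a := by linarith [ha.1]
  simp only
  apply Real.log_le_log
  · have : 0 < b := by linarith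
    positivity
  · gcongr

/-- the parameters for large `y` -/
theorem eventual (B : ℝ) {ε : ℝ} (hε : 0 < ε) :
    ∀ᶠ y : ℕ in atTop, 3 ≤ y ∧ 1 ≤ Real.log (y : ℝ) ∧ 1 ≤ y / Real.log (y : ℝ) ∧
      B < y / Real.log (y : ℝ) ∧
      ((PP y).card : ℝ) ≤ 1001 * (y / Real.log (y : ℝ)) ∧
      (2.113 - 1 / 2000) * (y / Real.log (y : ℝ)) + S1 y / 2 ≤ LZ y ∧
      (Nat.primeCounting y : ℝ) * Real.log y - Chebyshev.theta y ≤ 7 / 10 ^ 9 * y ∧
      Real.log (((2 * (PP y).card : ℕ) + 1 : ℝ) * ((14 * (PP y).card : ℕ) + 1)) +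
        Real.log (100000000 : ℕ) + 2 * Real.log 2 + 1 ≤ 1 / 4000 * (y / Real.log (y : ℝ)) ∧
      2 * (7 / 10 ^ 9) / (1 / (16 * 1000)) + 2002 / (1 / (16 * 1000) * Real.log (y : ℝ)) ≤
        1 - Real.exp (-(1 / 2000)) ∧
      (1 - ε) * Real.log ((1000 * y : ℕ) : ℝ) ≤ Real.log (y / Real.log (y : ℝ)) := by
  have hcast : Tendsto (fun y : ℕ => (y : ℝ)) atTop atTop := tendsto_natCast_atTop_atTop
  have hlog : Tendsto (fun y : ℕ => Real.log (y : ℝ)) atTop atTop :=
    Real.tendsto_log_atTop.comp hcast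
  have hth : Tendsto (fun y : ℕ => Chebyshev.theta (y : ℝ) / y) atTop (𝓝 1) :=
    Pool.Agent.Cov.PNT.theta_div_tendsto.comp hcast
  have hpi : Tendsto (fun y : ℕ => (Nat.primeCounting y : ℝ) * Real.log y / y) atTop (𝓝 1) := by
    have h1 := Pool.Agent.Cov.PNT.pi_tendsto.comp hcast
    refine h1.congr fun y => ?_
    simp only [Function.comp_apply, Nat.floor_natCast]
  have hdiff : Tendsto (fun y : ℕ => ((Nat.primeCounting y : ℝ) * Real.log y -
      Chebyshev.theta y) / y) atTop (𝓝 0) := by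
    have h1 := hpi.sub hth
    rw [sub_self] at h1
    refine h1.congr fun y => ?_
    ring
  have hp1 := (pi_lim (v := 21 / 10) (by norm_num)).comp hcast
  have hp2 := (pi_lim (v := 1000) (by norm_num)).comp hcast
  have hr1 := hcast.eventually (riemann (a := 1) (b := 21 / 10) (by norm_num) (by norm_num)
    anti_neg_log (show (0 : ℝ) < 1 / 5000 by norm_num))
  have hr2 := hcast.eventually (riemann (a := 21 / 10) (b := 1000) (by norm_num) (by norm_num)
    anti_tail (show (0 : ℝ) < 1 / 5000 by norm_num))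
  -- `log² y = o(y)`
  have hsq : ∀ c : ℝ, 0 < c → ∀ᶠ y : ℕ in atTop, Real.log (y : ℝ) ^ 2 ≤ c * y := by
    intro c hc
    have h1 := ((Real.isLittleO_pow_log_id_atTop (n := 2)).comp_tendsto hcast).bound hc
    filter_upwards [h1] with y hy
    simp only [Function.comp_apply, id_eq, Real.norm_eq_abs] at hy
    rw [abs_of_nonneg (by positivity), abs_of_nonneg (by positivity)] at hy
    exact hy
  have hll : ∀ᶠ y : ℕ in atTop, Real.log 1000 + Real.log (Real.log (y : ℝ)) ≤
      ε * Real.log (y : ℝ) := by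
    have h3 := (Real.isLittleO_log_id_atTop.comp_tendsto hlog).bound (show 0 < ε / 2 by linarith)
    filter_upwards [h3, hlog.eventually_ge_atTop (Real.log 1000 / (ε / 2)),
      hlog.eventually_ge_atTop 0] with y hk h4 h5
    simp only [Function.comp_apply, id_eq, Real.norm_eq_abs] at hk
    rw [abs_of_nonneg h5] at hk
    have h6 := (le_abs_self _).trans hk
    rw [div_le_iff₀ (by linarith)] at h4
    linarith
  have hk : Tendsto (fun y : ℕ => (y : ℝ) / Real.log y) atTop atTop := by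
    have h1 : Tendsto (fun y : ℕ => Real.log (y : ℝ)) atTop atTop := hlog
    refine tendsto_atTop_mono' atTop ?_ h1
    filter_upwards [hsq 1 one_pos, hlog.eventually_gt_atTop 0] with y h2 h3
    rw [le_div_iff₀ h3]
    nlinarith
  filter_upwards [hp1.eventually (lt_mem_nhds (show (21 / 10 - 1 / 10000 : ℝ) < 21 / 10 by norm_num)),
    hp2.eventually (gt_mem_nhds (show (1000 : ℝ) < 1001 by norm_num)),
    hr1, hr2, hdiff.eventually (gt_mem_nhds (show (0 : ℝ) < 7 / 10 ^ 9 by norm_num)),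
    hsq (1 / 10 ^ 6) (by norm_num), hll, hk.eventually_gt_atTop B,
    hk.eventually_ge_atTop 10000, hlog.eventually_ge_atTop (10 ^ 12),
    eventually_ge_atTop 3] with y e1 e2 e3 e4 e5 e6 e7 e8 e9 e10 e11
  simp only [Function.comp_apply] at e1 e2
  have hyR : (3 : ℝ) ≤ y := by exact_mod_cast e11
  have hy0 : (0 : ℝ) < y := by linarith
  set Y : ℝ := Real.log (y : ℝ) with hY
  have hY0 : 0 < Y := by linarith [e10, show (0 : ℝ) < 10 ^ 12 by norm_num]
  set κ : ℝ := y / Y with hκ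
  have hκ0 : 0 < κ := by positivity
  have hinv : Y / y = 1 / κ := by
    rw [hκ]
    field_simp
  have hyκ : κ * Y = y := by
    rw [hκ]
    field_simp
  rw [hinv] at e1 e2
  have c1 : (21 / 10 - 1 / 10000) * κ ≤ (Nat.primeCounting ⌊(21 / 10 : ℝ) * y⌋₊ : ℝ) := by
    have h1 := mul_lt_mul_of_pos_right e1 hκ0
    have h2 : (Nat.primeCounting ⌊(21 / 10 : ℝ) * y⌋₊ : ℝ) * (1 / κ) * κ =
        (Nat.primeCounting ⌊(21 / 10 : ℝ) * y⌋₊ : ℝ) := by
      field_simp
    rw [h2] at h1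
    exact h1.le
  have c2 : (Nat.primeCounting ⌊(1000 : ℝ) * y⌋₊ : ℝ) ≤ 1001 * κ := by
    have h1 := mul_lt_mul_of_pos_right e2 hκ0
    have h2 : (Nat.primeCounting ⌊(1000 : ℝ) * y⌋₊ : ℝ) * (1 / κ) * κ =
        (Nat.primeCounting ⌊(1000 : ℝ) * y⌋₊ : ℝ) := by
      field_simp
    rw [h2] at h1
    exact h1.le
  have cP : ((PP y).card : ℝ) ≤ 1001 * κ := card_PP.trans c2
  have hl2a := Real.log_two_gt_d9
  have hl2b := Real.log_two_lt_d9
  refine ⟨e11, ?_, ?_, e8, cP, ?_, ?_, ?_, ?_, ?_⟩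
  · have : (1 : ℝ) ≤ 10 ^ 12 := by norm_num
    linarith
  · linarith
  · -- the partition function
    have h1 := S1_le (y := y) (by omega)
    have h2 := LZ_ge (y := y) (by omega)
    have h3 := card_P1 (y := y)
    have h4 := integral_tail
    have h5 := integral_head
    have h6 : (∫ v in (1 : ℝ)..(21 / 10), -Real.log v) = -∫ v in (1 : ℝ)..(21 / 10), Real.log v :=
      intervalIntegral.integral_neg
    rw [h6] at e3
    have h7 : S1 y ≤ (0.46062 + 1 / 5000) * κ := by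
      have h8 : (-0.46062 - 1 / 5000) * κ ≤
          (-(∫ v in (1 : ℝ)..(21 / 10), Real.log v) - 1 / 5000) * κ := by
        apply mul_le_mul_of_nonneg_right _ hκ0.le
        linarith
      linarith
    have h8 : (0.8882 - 1 / 5000) * κ ≤
        ∑ p ∈ Nat.primesLE ⌊(1000 : ℝ) * y⌋₊ \ Nat.primesLE ⌊(21 / 10 : ℝ) * y⌋₊,
          Real.log (1 + 2 / ((p : ℝ) / y) ^ 2) := by
      refine le_trans ?_ e4
      apply mul_le_mul_of_nonneg_right _ hκ0.le
      linarith
    have h9 : (21 / 10 - 2 / 10000) * κ ≤ (P1 y).card := by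
      have : 1 ≤ 1 / 10000 * κ := by linarith
      linarith
    have h10 : (21 / 10 - 2 / 10000) * κ * 0.6931471803 ≤ (P1 y).card * Real.log 2 := by
      apply mul_le_mul h9 hl2a.le (by norm_num) (by positivity)
    linarith
  · rw [div_lt_iff₀ hy0] at e5
    exact e5.le
  · -- the number of classes
    have hPy : ((PP y).card : ℝ) ≤ 1001 * y := by
      refine cP.trans ?_
      have : κ ≤ y := by
        rw [hκ]
        apply div_le_self hy0.le
        have : (1 : ℝ) ≤ 10 ^ 12 := by norm_num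
        linarith
      linarith
    have h1 : (((2 * (PP y).card : ℕ) + 1 : ℝ) * ((14 * (PP y).card : ℕ) + 1)) ≤
        10 ^ 8 * (y : ℝ) ^ 2 := by
      push_cast
      have h2 : (2 * ((PP y).card : ℝ) + 1) ≤ 2003 * y := by linarith
      have h3 : (14 * ((PP y).card : ℝ) + 1) ≤ 14015 * y := by linarith
      calc (2 * ((PP y).card : ℝ) + 1) * (14 * ((PP y).card : ℝ) + 1)
          ≤ 2003 * y * (14015 * y) := by gcongr
        _ ≤ 10 ^ 8 * (y : ℝ) ^ 2 := by nlinarith
    have h2 := Real.log_le_log (by positivity) h1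
    have h2' : Real.log (10 ^ 8 * (y : ℝ) ^ 2) = 8 * Real.log 10 + 2 * Y := by
      rw [Real.log_mul (by norm_num) (by positivity), Real.log_pow, Real.log_pow, ← hY]
      norm_num
    rw [h2'] at h2
    have h3 : Real.log ((100000000 : ℕ) : ℝ) = 8 * Real.log 10 := by
      rw [show ((100000000 : ℕ) : ℝ) = 10 ^ 8 by norm_num, Real.log_pow]
      norm_num
    have h4 : Real.log 10 ≤ 9 := by
      have := Real.log_le_sub_one_of_pos (show (0 : ℝ) < 10 by norm_num)
      linarith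
    have h5 : 10 ^ 6 * Y ≤ κ := by
      rw [hκ, le_div_iff₀ hY0]
      nlinarith
    rw [h3]
    have h6 : (10 : ℝ) ^ 12 ≤ Y := e10
    norm_num at h6 h5 h2 ⊢
    linarith
  · have h1 : Real.exp (-(1 / 2000 : ℝ)) ≤ 2000 / 2001 := by
      rw [Real.exp_neg, inv_le_comm₀ (Real.exp_pos _) (by norm_num)]
      have := Real.add_one_le_exp (1 / 2000 : ℝ)
      norm_num at this ⊢
      linarith
    have h2 : 2002 / (1 / (16 * 1000) * Y) ≤ 1 / 10000 := by
      rw [div_le_div_iff₀ (by positivity) (by norm_num)]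
      norm_num at e10 ⊢
      linarith
    refine le_trans (add_le_add le_rfl h2) ?_
    refine le_trans ?_ (sub_le_sub_left h1 1)
    norm_num
  · have h1 : Real.log ((1000 * y : ℕ) : ℝ) = Real.log 1000 + Y := by
      push_cast
      rw [Real.log_mul (by norm_num) hy0.ne']
    have h2 : Real.log κ = Y - Real.log Y := by
      rw [hκ, Real.log_div hy0.ne' hY0.ne']
    rw [h1, h2]
    have h3 : 0 ≤ Real.log 1000 := Real.log_nonneg (by norm_num)
    have h4 : 0 ≤ ε * Real.log 1000 := by positivity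
    linarith

end Pool.Agent.V8H8.TC
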