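import Mathlib

/-!
# Exponent vectors: partition function, pigeonhole and averaging over the pairs of a class
-/

set_option autoImplicit false

namespace Pool.Agent.V8H8.TC

open Finset

variable {ι : Type*} [Fintype ι]

/-- the partition function of a product set -/
theorem partition [DecidableEq ι] (S : ι → Finset ℕ) (φ : ι → ℕ → ℝ) :
    ∑ x ∈ Fintype.piFinset S, Real.exp (-∑ i, φ i (x i)) =
      ∏ i, ∑ j ∈ S i, Real.exp (-φ i j) := by
  rw [Finset.prod_univ_sum]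
  refine Finset.sum_congr rfl fun x _ => ?_
  rw [← Finset.sum_neg_distrib, Real.exp_sum]

/-- a class of vectors with the same sum and the same integral part of the weight that is large -/
theorem big_class (Ω : Finset (ι → ℕ)) (Φ : (ι → ℕ) → ℝ) (J T : ℕ)
    (h0 : ∀ x ∈ Ω, 0 ≤ Φ x) (hJ : ∀ x ∈ Ω, ∑ i, x i ≤ J) (hT : ∀ x ∈ Ω, ⌊Φ x⌋₊ ≤ T) :
    ∃ j t : ℕ, t ≤ T ∧ ∑ x ∈ Ω, Real.exp (-Φ x) ≤
      ((J : ℝ) + 1) * ((T : ℝ) + 1) *
        (Real.exp (-(t : ℝ)) * ((Ω.filter fun x => ∑ i, x i = j ∧ ⌊Φ x⌋₊ = t).card : ℝ)) := by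
  classical
  by_contra hcon
  push Not at hcon
  set R : Finset (ℕ × ℕ) := range (J + 1) ×ˢ range (T + 1) with hR
  set key : (ι → ℕ) → ℕ × ℕ := fun x => (∑ i, x i, ⌊Φ x⌋₊) with hkey
  have hmap : ∀ x ∈ Ω, key x ∈ R := by
    intro x hx
    rw [hR, mem_product, mem_range, mem_range]
    exact ⟨Nat.lt_succ_of_le (hJ x hx), Nat.lt_succ_of_le (hT x hx)⟩
  set Z : ℝ := ∑ x ∈ Ω, Real.exp (-Φ x) with hZ
  have h1 : Z = ∑ r ∈ R, ∑ x ∈ Ω with key x = r, Real.exp (-Φ x) :=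
    (Finset.sum_fiberwise_of_maps_to hmap _).symm
  have hc : (R.card : ℝ) = ((J : ℝ) + 1) * ((T : ℝ) + 1) := by
    rw [hR, card_product, card_range, card_range]
    push_cast
    ring
  have hR0 : R.Nonempty := ⟨(0, 0), by simp [hR]⟩
  have h2 : ∀ r ∈ R, (R.card : ℝ) * ∑ x ∈ Ω with key x = r, Real.exp (-Φ x) < Z := by
    intro r hr
    rw [hR, mem_product, mem_range, mem_range] at hr
    refine lt_of_le_of_lt ?_ (hcon r.1 r.2 (by omega))
    rw [hc]
    apply mul_le_mul_of_nonneg_left _ (by positivity)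
    have hfil : (Ω.filter fun x => key x = r) =
        Ω.filter fun x => ∑ i, x i = r.1 ∧ ⌊Φ x⌋₊ = r.2 := by
      apply Finset.filter_congr
      intro x _
      rw [hkey]
      constructor
      · intro h
        rw [← h]
        exact ⟨rfl, rfl⟩
      · intro h
        exact Prod.ext h.1 h.2
    rw [hfil]
    calc ∑ x ∈ Ω.filter (fun x => ∑ i, x i = r.1 ∧ ⌊Φ x⌋₊ = r.2), Real.exp (-Φ x)
        ≤ ∑ _ ∈ Ω.filter (fun x => ∑ i, x i = r.1 ∧ ⌊Φ x⌋₊ = r.2), Real.exp (-(r.2 : ℝ)) := by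
          apply Finset.sum_le_sum
          intro x hx
          rw [mem_filter] at hx
          apply Real.exp_le_exp.mpr
          have := Nat.floor_le (h0 x hx.1)
          rw [hx.2.2] at this
          linarith
      _ = _ := by
          rw [Finset.sum_const, nsmul_eq_mul]
          ring
  have h3 := Finset.sum_lt_sum_of_nonempty hR0 h2
  rw [← Finset.mul_sum, ← h1, Finset.sum_const, nsmul_eq_mul] at h3
  exact lt_irrefl _ h3

/-- the pigeonhole principle for the products modulo `2 ^ m` -/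
theorem family (Ω : Finset (ι → ℕ)) (q : ι → ℕ) (N m : ℕ) (h : 2 ^ m * N ≤ Ω.card) :
    ∃ F : Finset (ι → ℕ), F.card = N ∧ F ⊆ Ω ∧
      ∀ x ∈ F, ∀ x' ∈ F, (∏ i, q i ^ x i) ≡ (∏ i, q i ^ x' i) [MOD 2 ^ m] := by
  classical
  have h1 : ∀ x ∈ Ω, (∏ i, q i ^ x i) % 2 ^ m ∈ range (2 ^ m) := by
    intro x _
    exact mem_range.mpr (Nat.mod_lt _ (by positivity))
  obtain ⟨y, _, hy⟩ := Finset.exists_le_card_fiber_of_mul_le_card_of_maps_to h1
    ⟨0, mem_range.mpr (by positivity)⟩ (n := N) (by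
      rw [card_range]
      exact h)
  obtain ⟨F, hF1, hF2⟩ := Finset.exists_subset_card_eq hy
  refine ⟨F, hF2, fun x hx => (mem_filter.mp (hF1 hx)).1, ?_⟩
  intro x hx x' hx'
  exact ((mem_filter.mp (hF1 hx)).2).trans ((mem_filter.mp (hF1 hx')).2).symm

/-- the sum of the squares of the differences -/
theorem sq_pairs {α : Type*} (F : Finset α) (f : α → ℝ) :
    ∑ x ∈ F, ∑ x' ∈ F, (f x - f x') ^ 2 =
      2 * F.card * ∑ x ∈ F, f x ^ 2 - 2 * (∑ x ∈ F, f x) ^ 2 := by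
  have h3 : ∀ x ∈ F, ∑ x' ∈ F, (f x - f x') ^ 2 =
      F.card * f x ^ 2 - 2 * f x * (∑ x' ∈ F, f x') + ∑ x' ∈ F, f x' ^ 2 := by
    intro x _
    calc ∑ x' ∈ F, (f x - f x') ^ 2
        = ∑ x' ∈ F, (f x ^ 2 - 2 * f x * f x' + f x' ^ 2) := by
          apply Finset.sum_congr rfl
          intro x' _
          ring
      _ = ∑ x' ∈ F, f x ^ 2 - ∑ x' ∈ F, 2 * f x * f x' + ∑ x' ∈ F, f x' ^ 2 := by
          rw [Finset.sum_add_distrib, Finset.sum_sub_distrib]
      _ = _ := by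
          rw [Finset.sum_const, nsmul_eq_mul, ← Finset.mul_sum]
  rw [Finset.sum_congr rfl h3, Finset.sum_add_distrib, Finset.sum_sub_distrib,
    Finset.sum_const, nsmul_eq_mul, ← Finset.mul_sum]
  have h5 : ∑ x ∈ F, 2 * f x * (∑ x' ∈ F, f x') = 2 * (∑ x ∈ F, f x) ^ 2 := by
    rw [← Finset.sum_mul, ← Finset.mul_sum]
    ring
  rw [h5]
  ring

/-- averaging over the pairs of a family -/
theorem average (F : Finset (ι → ℕ)) (lam : ι → ℝ) (hlam : ∀ i, 0 ≤ lam i) (p : ι → Prop)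
    [DecidablePred p] (h1 : ∀ x ∈ F, ∀ i, p i → x i ≤ 1) (hN : 2 ≤ F.card) (B : ℝ)
    (hB : ∀ x ∈ F, ∑ i with p i, lam i / 2 +
      ∑ i with ¬ p i, 2 * lam i * ((x i : ℝ) - 1) ^ 2 ≤ B) :
    ∃ x ∈ F, ∃ x' ∈ F, x ≠ x' ∧
      ((F.card : ℝ) - 1) * ∑ i, lam i * ((x i : ℝ) - x' i) ^ 2 ≤ F.card * B := by
  classical
  by_contra hcon
  push Not at hcon
  set N : ℝ := (F.card : ℝ) with hNdef
  have hN2 : (2 : ℝ) ≤ N := by
    rw [hNdef]
    exact_mod_cast hN
  set S : (ι → ℕ) → (ι → ℕ) → ℝ := fun x x' => ∑ i, lam i * ((x i : ℝ) - x' i) ^ 2 with hS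
  have htot : ∑ x ∈ F, ∑ x' ∈ F, S x x' ≤ N * (N * B) := by
    have e1 : ∑ x ∈ F, ∑ x' ∈ F, S x x' =
        ∑ i, lam i * (∑ x ∈ F, ∑ x' ∈ F, ((x i : ℝ) - x' i) ^ 2) := by
      calc ∑ x ∈ F, ∑ x' ∈ F, S x x'
          = ∑ x ∈ F, ∑ i, ∑ x' ∈ F, lam i * ((x i : ℝ) - x' i) ^ 2 :=
            Finset.sum_congr rfl fun x _ => Finset.sum_comm
        _ = ∑ i, ∑ x ∈ F, ∑ x' ∈ F, lam i * ((x i : ℝ) - x' i) ^ 2 := Finset.sum_comm
        _ = _ := by
            apply Finset.sum_congr rfl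
            intro i _
            rw [Finset.mul_sum]
            apply Finset.sum_congr rfl
            intro x _
            rw [Finset.mul_sum]
    have e2 : ∀ i, p i → ∑ x ∈ F, ∑ x' ∈ F, ((x i : ℝ) - x' i) ^ 2 ≤ N * ∑ x ∈ F, (1 / 2 : ℝ) := by
      intro i hi
      rw [sq_pairs F (fun x => (x i : ℝ)), Finset.sum_const, nsmul_eq_mul, ← hNdef]
      have e3 : ∑ x ∈ F, ((x i : ℝ)) ^ 2 = ∑ x ∈ F, (x i : ℝ) := by
        apply Finset.sum_congr rfl
        intro x hx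
        have := h1 x hx i hi
        interval_cases (x i) <;> norm_num
      rw [e3]
      nlinarith [sq_nonneg (N - 2 * ∑ x ∈ F, (x i : ℝ))]
    have e3 : ∀ i, ∑ x ∈ F, ∑ x' ∈ F, ((x i : ℝ) - x' i) ^ 2 ≤
        N * ∑ x ∈ F, 2 * ((x i : ℝ) - 1) ^ 2 := by
      intro i
      have e4 : ∀ x ∈ F, ∑ x' ∈ F, ((x i : ℝ) - x' i) ^ 2 =
          ∑ x' ∈ F, (((x i : ℝ) - 1) - ((x' i : ℝ) - 1)) ^ 2 := by
        intro x _
        apply Finset.sum_congr rfl
        intro x' _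
        ring
      rw [Finset.sum_congr rfl e4, sq_pairs F (fun x => (x i : ℝ) - 1), ← hNdef,
        ← Finset.mul_sum]
      nlinarith [sq_nonneg (∑ x ∈ F, ((x i : ℝ) - 1))]
    have e5 : ∑ i, lam i * (∑ x ∈ F, ∑ x' ∈ F, ((x i : ℝ) - x' i) ^ 2) ≤
        N * ∑ x ∈ F, (∑ i with p i, lam i / 2 +
          ∑ i with ¬ p i, 2 * lam i * ((x i : ℝ) - 1) ^ 2) := by
      rw [Finset.sum_add_distrib, mul_add, Finset.sum_comm, Finset.sum_comm (s := F)
        (t := univ.filter fun i => ¬ p i), Finset.mul_sum, Finset.mul_sum,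
        ← Finset.sum_filter_add_sum_filter_not univ p]
      apply add_le_add
      · apply Finset.sum_le_sum
        intro i hi
        rw [mem_filter] at hi
        calc lam i * (∑ x ∈ F, ∑ x' ∈ F, ((x i : ℝ) - x' i) ^ 2)
            ≤ lam i * (N * ∑ x ∈ F, (1 / 2 : ℝ)) :=
              mul_le_mul_of_nonneg_left (e2 i hi.2) (hlam i)
          _ = N * ∑ x ∈ F, lam i / 2 := by
              rw [Finset.sum_const, Finset.sum_const, nsmul_eq_mul, nsmul_eq_mul]
              ring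
      · apply Finset.sum_le_sum
        intro i _
        calc lam i * (∑ x ∈ F, ∑ x' ∈ F, ((x i : ℝ) - x' i) ^ 2)
            ≤ lam i * (N * ∑ x ∈ F, 2 * ((x i : ℝ) - 1) ^ 2) :=
              mul_le_mul_of_nonneg_left (e3 i) (hlam i)
          _ = N * ∑ x ∈ F, 2 * lam i * ((x i : ℝ) - 1) ^ 2 := by
              rw [mul_left_comm, Finset.mul_sum]
              congr 1
              apply Finset.sum_congr rfl
              intro x _
              ring
    rw [e1]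
    refine e5.trans ?_
    apply mul_le_mul_of_nonneg_left _ (by linarith)
    calc ∑ x ∈ F, (∑ i with p i, lam i / 2 + ∑ i with ¬ p i, 2 * lam i * ((x i : ℝ) - 1) ^ 2)
        ≤ ∑ _ ∈ F, B := Finset.sum_le_sum hB
      _ = N * B := by rw [Finset.sum_const, nsmul_eq_mul]
  obtain ⟨A₀, hA₀, B₀, hB₀, hAB₀⟩ := Finset.one_lt_card.mp (by omega : 1 < F.card)
  have hdiag : ∀ A, S A A = 0 := by
    intro A
    simp [hS]
  set b : ℝ := N * B / (N - 1) with hb
  have hoff : ∀ A ∈ F, ∀ A' ∈ F, A ≠ A' → b < S A A' := by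
    intro A hA A' hA' hAA
    have h1 := hcon A hA A' hA' hAA
    rw [hb, div_lt_iff₀ (by linarith)]
    linarith
  have hrow : ∀ A ∈ F, (N - 1) * b < ∑ A' ∈ F, S A A' := by
    intro A hA
    rw [← Finset.add_sum_erase F _ hA, hdiag, zero_add]
    have hcard : ((F.erase A).card : ℝ) = N - 1 := by
      rw [Finset.card_erase_of_mem hA, hNdef, Nat.cast_sub (by omega)]
      norm_num
    calc (N - 1) * b = ∑ _ ∈ F.erase A, b := by
          rw [Finset.sum_const, nsmul_eq_mul, hcard]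
      _ < ∑ A' ∈ F.erase A, S A A' := by
          apply Finset.sum_lt_sum_of_nonempty
          · rw [← Finset.card_pos, Finset.card_erase_of_mem hA]
            omega
          · intro A' hA'
            obtain ⟨h1, h2⟩ := Finset.mem_erase.mp hA'
            exact hoff A hA A' h2 h1.symm
  have hall : N * ((N - 1) * b) < ∑ A ∈ F, ∑ A' ∈ F, S A A' := by
    calc N * ((N - 1) * b) = ∑ _ ∈ F, (N - 1) * b := by
          rw [Finset.sum_const, nsmul_eq_mul]
      _ < ∑ A ∈ F, ∑ A' ∈ F, S A A' := Finset.sum_lt_sum_of_nonempty ⟨A₀, hA₀⟩ hrow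
  have hfin : (N - 1) * b = N * B := by
    have h1 : N - 1 ≠ 0 := by linarith
    rw [hb]
    field_simp
  rw [hfin] at hall
  linarith

end Pool.Agent.V8H8.TC
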