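import Pool.Agent.V8H8.TC.Comb

/-!
# The choice of two vectors of exponents
-/

set_option autoImplicit false

namespace Pool.Agent.V8H8.TC

open Finset

/-- the odd primes `≤ 1000 y` -/
def PP (y : ℕ) : Finset ℕ := (Nat.primesLE (1000 * y)).erase 2

open Classical in
/-- the odd primes `≤ 2.1 y` -/
noncomputable def P1 (y : ℕ) : Finset ℕ := (PP y).filter fun p => (p : ℝ) ≤ 21 / 10 * y

open Classical in
/-- the primes in `(2.1 y, 1000 y]` -/
noncomputable def P2 (y : ℕ) : Finset ℕ := (PP y).filter fun p => ¬ (p : ℝ) ≤ 21 / 10 * y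

/-- `log⁺ (p / y)` -/
noncomputable def lam (y p : ℕ) : ℝ := max (Real.log p - Real.log y) 0

/-- the logarithm of the partition function -/
noncomputable def LZ (y : ℕ) : ℝ :=
  (P1 y).card * Real.log 2 + ∑ p ∈ P2 y, Real.log (1 + 2 * Real.exp (-(2 * lam y p)))

/-- the sum of the weights of the small primes -/
noncomputable def S1 (y : ℕ) : ℝ := ∑ p ∈ P1 y, lam y p

theorem lam_nonneg (y p : ℕ) : 0 ≤ lam y p := le_max_right _ _

theorem lam_le {y p : ℕ} (hy : 0 < y) (hp : p ∈ PP y) : lam y p ≤ 7 := by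
  rw [PP, mem_erase, Nat.mem_primesLE] at hp
  have hp0 : (0 : ℝ) < p := by exact_mod_cast hp.2.2.pos
  have hy0 : (0 : ℝ) < y := by exact_mod_cast hy
  have h1 : (p : ℝ) ≤ 1000 * y := by exact_mod_cast hp.2.1
  have h2 := Real.log_le_log hp0 h1
  rw [Real.log_mul (by norm_num) hy0.ne'] at h2
  have h3 : Real.log 1000 ≤ 7 := by
    have h4 : (1000 : ℝ) ≤ 2 ^ 10 := by norm_num
    have h5 := Real.log_le_log (by norm_num) h4
    rw [Real.log_pow] at h5
    have := Real.log_two_lt_d9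
    push_cast at h5
    linarith
  exact max_le (by linarith) (by norm_num)

/-- the choice of two vectors -/
theorem select {y N : ℕ} (hy : 0 < y) (hN : 2 ≤ N) {Q : ℝ}
    (hQ : Q = Real.log (((2 * (PP y).card : ℕ) + 1 : ℝ) * ((14 * (PP y).card : ℕ) + 1)) +
      Real.log N + 2 * Real.log 2) (hZ : Q ≤ LZ y) :
    ∃ t m : ℕ, ∃ x x' : ↥(PP y) → ℕ, t ≤ 14 * (PP y).card ∧
      (∀ i, x i ≤ 2 ∧ x' i ≤ 2) ∧
      (∀ i : ↥(PP y), ((i : ℕ) : ℝ) ≤ 21 / 10 * y → x i ≤ 1 ∧ x' i ≤ 1) ∧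
      ∑ i, x i = ∑ i, x' i ∧ x ≠ x' ∧
      (∏ i : ↥(PP y), (i : ℕ) ^ x i) ≡ (∏ i : ↥(PP y), (i : ℕ) ^ x' i) [MOD 2 ^ m] ∧
      ((N : ℝ) - 1) * ∑ i : ↥(PP y), lam y i * ((x i : ℝ) - x' i) ^ 2 ≤
        N * (S1 y / 2 + t + 1) ∧
      t + LZ y - Q ≤ (m - 1) * Real.log 2 ∧
      m * Real.log 2 ≤ 2 * (PP y).card := by
  classical
  set P := PP y with hP
  set p₁ : ↥P → Prop := fun i => ((i : ℕ) : ℝ) ≤ 21 / 10 * y with hp₁
  set S : ↥P → Finset ℕ := fun i => if p₁ i then range 2 else range 3 with hS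
  set φ : ↥P → ℕ → ℝ := fun i j =>
    if p₁ i then 0 else 2 * lam y i * ((j : ℝ) - 1) ^ 2 with hφ
  set Ω : Finset (↥P → ℕ) := Fintype.piFinset S with hΩ
  set Φ : (↥P → ℕ) → ℝ := fun x => ∑ i, φ i (x i) with hΦ
  have hφ0 : ∀ i j, 0 ≤ φ i j := by
    intro i j
    simp only [hφ]
    split_ifs
    · exact le_rfl
    · have := lam_nonneg y i
      positivity
  have hmemΩ : ∀ x ∈ Ω, ∀ i, x i ≤ 2 ∧ (p₁ i → x i ≤ 1) := by
    intro x hx i
    rw [hΩ, Fintype.mem_piFinset] at hx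
    have h1 := hx i
    simp only [hS] at h1
    split_ifs at h1 with h2
    · rw [mem_range] at h1
      exact ⟨by omega, fun _ => by omega⟩
    · rw [mem_range] at h1
      exact ⟨by omega, fun h => absurd h h2⟩
  have hcardP : (univ : Finset ↥P).card = P.card := by
    rw [card_univ, Fintype.card_coe]
  have hφ14 : ∀ x ∈ Ω, ∀ i, φ i (x i) ≤ 14 := by
    intro x hx i
    have h1 := (hmemΩ x hx i).1
    have h2 : ((x i : ℝ) - 1) ^ 2 ≤ 1 := by
      interval_cases (x i) <;> norm_num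
    have h3 := lam_le hy i.2
    have h4 := lam_nonneg y i
    simp only [hφ]
    split_ifs
    · norm_num
    · nlinarith
  have hΦ0 : ∀ x ∈ Ω, 0 ≤ Φ x := fun x _ => Finset.sum_nonneg fun i _ => hφ0 i _
  have hJ : ∀ x ∈ Ω, ∑ i, x i ≤ 2 * P.card := by
    intro x hx
    calc ∑ i, x i ≤ ∑ _ : ↥P, 2 := Finset.sum_le_sum fun i _ => (hmemΩ x hx i).1
      _ = 2 * P.card := by rw [Finset.sum_const, hcardP, smul_eq_mul, mul_comm]
  have hT : ∀ x ∈ Ω, ⌊Φ x⌋₊ ≤ 14 * P.card := by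
    intro x hx
    apply Nat.floor_le_of_le
    calc Φ x ≤ ∑ _ : ↥P, (14 : ℝ) := Finset.sum_le_sum fun i _ => hφ14 x hx i
      _ = ((14 * P.card : ℕ) : ℝ) := by
          rw [Finset.sum_const, hcardP, nsmul_eq_mul]
          push_cast
          ring
  obtain ⟨j, t, ht, hbig⟩ := big_class Ω Φ (2 * P.card) (14 * P.card) hΦ0 hJ hT
  set Ω' : Finset (↥P → ℕ) := Ω.filter fun x => ∑ i, x i = j ∧ ⌊Φ x⌋₊ = t with hΩ'
  -- the partition function
  have hZval : ∑ x ∈ Ω, Real.exp (-Φ x) = Real.exp (LZ y) := by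
    rw [hΩ, hΦ, partition S φ, LZ, Real.exp_add, Real.exp_sum, mul_comm ((P1 y).card : ℝ),
      ← Real.rpow_def_of_pos (by norm_num : (0 : ℝ) < 2), Real.rpow_natCast]
    have h1 : ∏ i : ↥P, ∑ j ∈ S i, Real.exp (-φ i j) =
        ∏ p ∈ P, (if (p : ℝ) ≤ 21 / 10 * y then (2 : ℝ) else
          1 + 2 * Real.exp (-(2 * lam y p))) := by
      rw [← Finset.prod_coe_sort P (fun p : ℕ => (if (p : ℝ) ≤ 21 / 10 * y then (2 : ℝ) else
          1 + 2 * Real.exp (-(2 * lam y p))))]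
      apply Finset.prod_congr rfl
      intro i _
      simp only [hS, hφ]
      by_cases h : p₁ i
      · rw [if_pos h, if_pos h]
        simp only [if_pos h, neg_zero, Real.exp_zero]
        norm_num
      · rw [if_neg h, if_neg h]
        simp only [if_neg h]
        rw [Finset.sum_range_succ, Finset.sum_range_succ, Finset.sum_range_one]
        norm_num
        ring
    rw [h1, Finset.prod_ite]
    congr 1
    · rw [Finset.prod_const]
      rfl
    · apply Finset.prod_congr rfl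
      intro p _
      rw [Real.exp_log]
      have := Real.exp_pos (-(2 * lam y p))
      positivity
  rw [hZval] at hbig
  set A : ℝ := (((2 * P.card : ℕ) : ℝ) + 1) * (((14 * P.card : ℕ) : ℝ) + 1) with hA
  have hA0 : 0 < A := by positivity
  have hNR : (2 : ℝ) ≤ N := by exact_mod_cast hN
  have hcard0 : (0 : ℝ) < (Ω'.card : ℝ) := by
    by_contra hcon
    have h1 : (Ω'.card : ℝ) = 0 := le_antisymm (not_lt.mp hcon) (by positivity)
    rw [h1, mul_zero, mul_zero] at hbig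
    exact absurd hbig (not_le.mpr (Real.exp_pos _))
  have hlogn : (t : ℝ) + LZ y - Real.log A ≤ Real.log (Ω'.card : ℝ) := by
    have h1 := Real.log_le_log (Real.exp_pos _) hbig
    rw [Real.log_exp, Real.log_mul hA0.ne' (by positivity),
      Real.log_mul (Real.exp_pos _).ne' hcard0.ne', Real.log_exp] at h1
    linarith
  have hl2 : 0 < Real.log 2 := Real.log_pos (by norm_num)
  have htR : (0 : ℝ) ≤ t := by positivity
  have hCN : N ≤ Ω'.card := by
    have h1 : Real.log N ≤ Real.log (Ω'.card : ℝ) := by linarith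
    have h2 := (Real.log_le_log_iff (by linarith) hcard0).mp h1
    exact_mod_cast h2
  have hdiv : Ω'.card / N ≠ 0 := by
    intro h
    rw [Nat.div_eq_zero_iff] at h
    omega
  set m : ℕ := Nat.log 2 (Ω'.card / N) with hm
  have h3 : 2 ^ m ≤ Ω'.card / N := Nat.pow_log_le_self 2 hdiv
  have h4 : Ω'.card / N < 2 ^ (m + 1) := Nat.lt_pow_succ_log_self (by norm_num) _
  have h5 : 2 ^ m * N ≤ Ω'.card := (Nat.mul_le_mul_right N h3).trans (Nat.div_mul_le_self _ N)
  have h6 : Ω'.card < 2 ^ (m + 1) * N := (Nat.div_lt_iff_lt_mul (by omega)).mp h4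
  obtain ⟨F, hF1, hF2, hF3⟩ := family Ω' (fun i : ↥P => (i : ℕ)) N m h5
  have hFmem : ∀ x ∈ F, x ∈ Ω ∧ ∑ i, x i = j ∧ ⌊Φ x⌋₊ = t := by
    intro x hx
    have := hF2 hx
    rw [hΩ', mem_filter] at this
    exact this
  have hsplit : ∀ g : ↥P → ℝ, ∑ i with p₁ i, g i + ∑ i with ¬ p₁ i, g i = ∑ i, g i :=
    fun g => Finset.sum_filter_add_sum_filter_not univ p₁ g
  obtain ⟨x, hx, x', hx', hne, hcost⟩ := average F (fun i : ↥P => lam y i)
    (fun i => lam_nonneg y i) p₁ (fun x hx i hi => (hmemΩ x (hFmem x hx).1 i).2 hi)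
    (by rw [hF1]; exact hN) (S1 y / 2 + t + 1) (by
      intro x hx
      obtain ⟨hxΩ, _, hxt⟩ := hFmem x hx
      have e1 : ∑ i with p₁ i, lam y (i : ℕ) / 2 = S1 y / 2 := by
        rw [S1, P1, Finset.sum_div, Finset.sum_filter, Finset.sum_filter,
          ← Finset.sum_coe_sort P (fun p : ℕ => if (p : ℝ) ≤ 21 / 10 * y then lam y p / 2 else 0)]
      have e2 : ∑ i with ¬ p₁ i, 2 * lam y (i : ℕ) * ((x i : ℝ) - 1) ^ 2 = Φ x := by
        rw [hΦ, Finset.sum_filter]
        apply Finset.sum_congr rfl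
        intro i _
        simp only [hφ]
        by_cases h : p₁ i
        · simp [h]
        · simp [h]
      rw [e1, e2]
      have e3 := Nat.lt_floor_add_one (Φ x)
      rw [hxt] at e3
      linarith)
  rw [hF1] at hcost
  obtain ⟨hxΩ, hxj, _⟩ := hFmem x hx
  obtain ⟨hxΩ', hxj', _⟩ := hFmem x' hx'
  refine ⟨t, m, x, x', ht, fun i => ⟨(hmemΩ x hxΩ i).1, (hmemΩ x' hxΩ' i).1⟩,
    fun i hi => ⟨(hmemΩ x hxΩ i).2 hi, (hmemΩ x' hxΩ' i).2 hi⟩, hxj.trans hxj'.symm, hne,
    hF3 x hx x' hx', hcost, ?_, ?_⟩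
  · have h8 : (Ω'.card : ℝ) ≤ 2 ^ (m + 1) * N := by exact_mod_cast h6.le
    have h9 := Real.log_le_log hcard0 h8
    rw [Real.log_mul (by positivity) (by positivity), Real.log_pow] at h9
    push_cast at h9
    rw [hQ]
    linarith
  · have h7 : Ω'.card ≤ 3 ^ P.card := by
      calc Ω'.card ≤ Ω.card := Finset.card_filter_le _ _
        _ = ∏ i, (S i).card := Fintype.card_piFinset S
        _ ≤ ∏ _ : ↥P, 3 := by
            apply Finset.prod_le_prod'
            intro i _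
            simp only [hS]
            split_ifs <;> simp
        _ = 3 ^ P.card := by rw [Finset.prod_const, hcardP]
    have h8 : 2 ^ m ≤ 3 ^ P.card :=
      (Nat.le_mul_of_pos_right _ (by omega)).trans (h5.trans h7)
    have h9 : (2 : ℝ) ^ m ≤ 3 ^ P.card := by exact_mod_cast h8
    have h10 := Real.log_le_log (by positivity) h9
    rw [Real.log_pow, Real.log_pow] at h10
    have h11 : Real.log 3 ≤ 2 := by
      have := Real.log_le_sub_one_of_pos (show (0 : ℝ) < 3 by norm_num)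
      linarith
    have h12 : (0 : ℝ) ≤ P.card := by positivity
    calc (m : ℝ) * Real.log 2 ≤ P.card * Real.log 3 := h10
      _ ≤ P.card * 2 := mul_le_mul_of_nonneg_left h11 h12
      _ = 2 * P.card := mul_comm _ _

end Pool.Agent.V8H8.TC
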